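import Pool.Agent.Lib.Prt.Inj

/-!
MODULE Prt.Cent.  A retraction that fixes a nonconstant polynomial in `z` fixes `z`.
-/

namespace Prt

open Polynomial

noncomputable section

theorem central_of_poly {k : Type*} [Field k] {J : Type*} [Fintype J] [DecidableEq J]
    {p : k[X]} (hp : 0 < p.natDegree) {w : W k J} (hw : w * zin p = zin p * w) :
    w = zin (eps w) := by
  have hinj : Function.Injective (algebraMap k (W k J)) := FaithfulSMul.algebraMap_injective k _
  have hD : ∀ i, D i w = 0 := by
    intro i
    by_contra hne
    have h1 := congrArg (D i) hw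
    rw [D_mul, D_mul, D_zin, eps_zin, mul_zero, zero_add, zero_mul, add_zero] at h1
    have hp0 : p.map (algebraMap k (W k J)) ≠ 0 := by
      rw [Ne, Polynomial.map_eq_zero_iff hinj]
      rintro rfl
      simp at hp
    have h2 : (D i w * p.map (algebraMap k (W k J))).natDegree = (D i w).natDegree + p.natDegree := by
      rw [Polynomial.natDegree_mul hne hp0, Polynomial.natDegree_map_eq_of_injective hinj]
    have h3 : (C (zin p : W k J) * D i w).natDegree ≤ (D i w).natDegree :=
      Polynomial.natDegree_C_mul_le _ _
    rw [← h1, h2] at h3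
    omega
  have h := decomp w
  simp only [hD, S_zero, Finset.sum_const_zero, add_zero] at h
  exact h

theorem pi_z {k : Type*} [Field k] {J : Type*} [Fintype J] [DecidableEq J]
    (π : W k J →ₐ[k] W k J) (hπ : ∀ f, π (π f) = π f)
    {p : k[X]} (hp : 0 < p.natDegree) (h : π (zin p) = zin p) : π z = z := by
  set w := π (z : W k J) with hw
  have hzc : ∀ q : k[X], π (zin q) = aeval w q := by
    intro q
    rw [zin, hw]
    exact (Polynomial.aeval_algHom_apply π z q).symm
  have h1 : aeval w p = (zin p : W k J) := by rw [← hzc, h]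
  have h2 : w * zin p = zin p * w := by
    rw [← h1]
    have h3 : aeval w (X * p) = aeval w (p * X) := by rw [mul_comm]
    rw [map_mul, map_mul, aeval_X] at h3
    exact h3
  have h3 := central_of_poly hp h2
  obtain ⟨g, hg⟩ : ∃ g : k[X], w = zin g := ⟨_, h3⟩
  have hcomp : ∀ q : k[X], aeval w q = (zin (q.comp g) : W k J) := by
    intro q
    rw [hg, zin, Polynomial.aeval_comp]
  have hpg : p.comp g = p := by
    have h4 : (zin (p.comp g) : W k J) = zin p := by rw [← hcomp, h1]
    have h5 := congrArg (eps (k := k) (J := J)) h4
    rwa [eps_zin, eps_zin] at h5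
  have hgg : g.comp g = g := by
    have h4 : (zin (g.comp g) : W k J) = zin g := by
      rw [← hcomp, ← hzc, ← hg, hw, hπ]
    have h5 := congrArg (eps (k := k) (J := J)) h4
    rwa [eps_zin, eps_zin] at h5
  have hdeg : g.natDegree = 1 := by
    have h4 := congrArg natDegree hpg
    rw [Polynomial.natDegree_comp] at h4
    have : p.natDegree * g.natDegree = p.natDegree * 1 := by rw [h4, mul_one]
    exact Nat.eq_of_mul_eq_mul_left hp this
  obtain ⟨a, ha, b, hab⟩ := Polynomial.natDegree_eq_one.1 hdeg
  have hcg : g.comp g = C (a * a) * X + C (a * b + b) := by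
    rw [← hab]
    simp only [add_comp, mul_comp, C_comp, X_comp, C_mul, C_add]
    ring
  rw [hcg, ← hab] at hgg
  have e1 : a * a = a := by
    have := congrArg (fun q => q.coeff 1) hgg
    simpa using this
  have e0 : a * b + b = b := by
    have := congrArg (fun q => q.coeff 0) hgg
    simpa using this
  have ha1 : a = 1 := by
    have : a * (a - 1) = 0 := by rw [mul_sub, e1, mul_one, sub_self]
    rcases mul_eq_zero.1 this with h | h
    · exact absurd h ha
    · exact sub_eq_zero.1 h
  have hb0 : b = 0 := by
    rw [ha1, one_mul] at e0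
    simpa using e0
  rw [hg, ← hab, ha1, hb0]
  simp

end

end Prt
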