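import Pool.Agent.Lib.Prt.PiStar

/-!
MODULE Prt.CommMinors.  If `π f`, `π g` commute modulo `z`, the linear parts are proportional.
-/

namespace Prt

open Polynomial

noncomputable section

variable {k : Type*} [CommRing k] {J : Type*}

/-- the endomorphism that kills `z` -/
def kap : W k J →ₐ[k] W k J := hom (fun o => o.elim 0 (fun j => x j))

/-- evaluation of both variables at `0` -/
def ev : k[X][X] →+* k := (evalRingHom (0 : k)).comp (evalRingHom (0 : k[X]))

/-- the representation by upper triangular matrices that reads off the coefficients of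
`x j`, `x j'` and `x j * x j'` -/
private def tau [DecidableEq J] (j j' : J) : W k J →ₐ[k] Matrix (Fin 3) (Fin 3) k :=
  hom (fun o => o.elim 0 (fun l => !![0, if l = j then 1 else 0, 0;
    0, 0, if l = j' then 1 else 0; 0, 0, 0]))

private lemma tau_kap [DecidableEq J] (j j' : J) (f : W k J) : tau j j' (kap f) = tau j j' f := by
  have h : (tau (k := k) j j').comp kap = tau j j' := by
    apply hom_ext
    · simp [kap, tau]
    · intro i
      simp [kap]
  exact DFunLike.congr_fun h f

private lemma ev_C (a : k[X]) : ev (C a) = a.eval 0 := by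
  simp [ev]

private lemma ev_lin_mul (p q : (W k J)[X]) : ev (lin (p * q)) = ev (lin p) * ev (lin q) := by
  simp [lin, Polynomial.map_mul]

private lemma ev_lin_add (p q : (W k J)[X]) : ev (lin (p + q)) = ev (lin p) + ev (lin q) := by
  simp [lin, Polynomial.map_add]

private lemma ev_lin_C (a : W k J) : ev (lin (C a)) = (eps a).eval 0 := by
  simp [lin, ev]

private lemma ev_lin_map (p : k[X]) :
    ev (lin (p.map (algebraMap k (W k J)))) = p.eval 0 := by
  have h : lin (p.map (algebraMap k (W k J))) = p.map C := by
    rw [lin, Polynomial.map_map]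
    congr 1
    ext c : 1
    simp
  rw [h, ev]
  simp [Polynomial.eval_map, Polynomial.eval₂_at_zero, Polynomial.coeff_zero_eq_eval_zero]

private lemma tau_entries [DecidableEq J] (j j' : J) (f : W k J) :
    tau j j' f 0 0 = (eps f).eval 0 ∧ tau j j' f 1 1 = (eps f).eval 0 ∧
    tau j j' f 2 2 = (eps f).eval 0 ∧ tau j j' f 1 0 = 0 ∧ tau j j' f 2 0 = 0 ∧
    tau j j' f 2 1 = 0 ∧ tau j j' f 0 1 = ev (lin (D j f)) ∧
    tau j j' f 1 2 = ev (lin (D j' f)) := by
  induction f using W_induction_left with
  | h0 c =>
    simp only [AlgHom.commutes, D_algebraMap, Matrix.algebraMap_matrix_apply]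
    simp [lin]
  | hl o f ih =>
    obtain ⟨h00, h11, h22, h10, h20, h21, h01, h12⟩ := ih
    have he : (eps (lt o : W k J)).eval 0 = 0 := by
      cases o <;> simp [eps]
    have hD : ∀ i : J, ev (lin (D i (lt o * f))) = ev (lin (D i (lt o : W k J))) * (eps f).eval 0 := by
      intro i
      rw [D_mul, ev_lin_add, ev_lin_mul, ev_lin_mul, ev_lin_C, he, ev_lin_map]
      ring
    have hDo : ∀ i : J, ev (lin (D i (lt o : W k J))) = if o = some i then 1 else 0 := by
      intro i
      cases o with
      | none =>
        have : D i (lt none : W k J) = 0 := D_z i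
        rw [this]
        simp [lin]
      | some l =>
        have : D i (lt (some l) : W k J) = if l = i then 1 else 0 := D_x i l
        rw [this]
        by_cases h : l = i
        · simp [h, lin]
        · simp [h, lin]
    rw [map_mul, map_mul]
    simp only [Matrix.mul_apply, Fin.sum_univ_three, h00, h11, h22, h10, h20, h21, h01, h12,
      Polynomial.eval_mul, he, hD, hDo]
    cases o with
    | none => simp [tau]
    | some l =>
      simp [tau]
  | hadd f g hf hg =>
    obtain ⟨h00, h11, h22, h10, h20, h21, h01, h12⟩ := hf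
    obtain ⟨g00, g11, g22, g10, g20, g21, g01, g12⟩ := hg
    simp only [map_add, Matrix.add_apply, D_add, ev_lin_add, h00, h11, h22, h10, h20, h21, h01, h12,
      g00, g11, g22, g10, g20, g21, g01, g12, Polynomial.eval_add]
    simp

private lemma tau_mul [DecidableEq J] (j j' : J) (f g : W k J) (hf : (eps f).eval 0 = 0)
    (hg : (eps g).eval 0 = 0) :
    tau j j' (f * g) 0 2 = ev (lin (D j f)) * ev (lin (D j' g)) := by
  obtain ⟨h00, h11, h22, h10, h20, h21, h01, h12⟩ := tau_entries j j' f
  obtain ⟨g00, g11, g22, g10, g20, g21, g01, g12⟩ := tau_entries j j' g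
  rw [map_mul, Matrix.mul_apply, Fin.sum_univ_three, h00, hf, g22, hg, h01, g12]
  ring

theorem comm_minors [DecidableEq J] (π : W k J →ₐ[k] W k J) (he : ∀ f, eps (π f) = eps f)
    (hc : ∀ f g, kap (π f * π g - π g * π f) = 0) (i i' j j' : J) :
    ev (lin (D j (π (x i)))) * ev (lin (D j' (π (x i')))) =
      ev (lin (D j' (π (x i)))) * ev (lin (D j (π (x i')))) := by
  have h0 : ∀ l : J, (eps (π (x l : W k J))).eval 0 = 0 := by
    intro l
    rw [he]; simp
  have h1 : tau j j' (π (x i) * π (x i')) 0 2 = tau j j' (π (x i') * π (x i)) 0 2 := by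
    have h2 := hc (x i) (x i')
    have h3 : tau j j' (π (x i) * π (x i') - π (x i') * π (x i)) = 0 := by
      rw [← tau_kap, h2, map_zero]
    rw [map_sub, sub_eq_zero] at h3
    rw [h3]
  rw [tau_mul _ _ _ _ (h0 _) (h0 _), tau_mul _ _ _ _ (h0 _) (h0 _)] at h1
  rw [h1, mul_comm]

end

end Prt
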