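import Pool.Agent.Lib.Prt.Decomp

/-!
MODULE Prt.DCoeff (1 h).  The coefficients of `D i f`, and an induction principle.

SKETCH.
* `D_coeff`: both sides are linear in `f`.  Use `W_induction_right` in `f`: for a scalar both sides
  vanish (the word on the right side is not empty); for `f * z`: `D i (f * z) = D i f * X`
  (`D_mul`, `D_z`, `eps_z`), the coefficient shifts, and `(f * z).coeff (w * of (some i) * of none ^ a)` is
  `0` for `a = 0` and `f.coeff (w * of (some i) * of none ^ (a - 1))` for `a ≥ 1`; for `f * x j`:
  `D i (f * x j) = if j = i then C f else 0`, and the coefficient of `f * x j` at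
  `w * of (some i) * of none ^ a` is `0` for `a ≥ 1` and `if j = i then f.coeff w else 0` for `a = 0`.
  (Coefficients of `f * lt o` at a word ending in another letter vanish:
  `MonoidAlgebra.mul_single_apply_of_not_exists_mul`-type lemmas, or prove the whole statement first for
  single words `f = single v c`, where it is a statement about words.)
* `ker_trivial`: by induction on `n`: every `f ∈ N` with all words of length `< n` is zero.  For
  `f ∈ N` with words of length `< n + 1`, the coefficients `(D i f).coeff a` are in `N` and have words of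
  length `< n` by `D_coeff`, so they vanish, `D i f = 0`, and `decomp f` with `eps f = 0` gives `f = 0`.
-/

namespace Prt

open Polynomial

noncomputable section

variable {k : Type*} [CommRing k] {J : Type*} [DecidableEq J]

theorem DCoeff_last_inj {α : Type*} {d u : FreeMonoid α} {o o' : α} :
    d * FreeMonoid.of o = u * FreeMonoid.of o' ↔ d = u ∧ o = o' := by
  constructor
  · intro h
    have h1 : FreeMonoid.toList d ++ [o] = FreeMonoid.toList u ++ [o'] :=
      congrArg FreeMonoid.toList h
    have h2 := List.append_inj' h1 rfl
    exact ⟨FreeMonoid.toList.injective h2.1, by simpa using h2.2⟩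
  · rintro ⟨rfl, rfl⟩
    rfl

omit [DecidableEq J] in
theorem DCoeff_lt_eq (f : W k J) (o : Option J) (u : FreeMonoid (Option J)) :
    (f * lt o).coeff (u * FreeMonoid.of o) = f.coeff u := by
  have h : (lt o : W k J) = MonoidAlgebra.single (FreeMonoid.of o) 1 := rfl
  rw [h, MonoidAlgebra.coeff_mul_single_eq_coeff_mul u, mul_one]
  intro m' _
  rw [DCoeff_last_inj]
  exact ⟨fun h => h.1, fun h => ⟨h, rfl⟩⟩

omit [DecidableEq J] in
theorem DCoeff_lt_ne (f : W k J) {o o' : Option J} (ho : o ≠ o') (u : FreeMonoid (Option J)) :
    (f * lt o).coeff (u * FreeMonoid.of o') = 0 := by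
  have h : (lt o : W k J) = MonoidAlgebra.single (FreeMonoid.of o) 1 := rfl
  rw [h]
  refine MonoidAlgebra.coeff_mul_single_of_forall_mul_ne _ _ fun d hd => ?_
  exact ho (DCoeff_last_inj.1 hd).2

omit [DecidableEq J] in
theorem DCoeff_scalar (c : k) (w v : FreeMonoid (Option J)) (o : Option J) :
    (algebraMap k (W k J) c).coeff (w * FreeMonoid.of o * v) = 0 := by
  classical
  rw [MonoidAlgebra.coe_algebraMap]
  show (MonoidAlgebra.single (1 : FreeMonoid (Option J)) c).coeff _ = 0
  rw [MonoidAlgebra.coeff_single, Finsupp.single_apply, if_neg]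
  intro h
  have h1 : [] = FreeMonoid.toList w ++ [o] ++ FreeMonoid.toList v :=
    congrArg FreeMonoid.toList h
  simp at h1

theorem D_coeff (i : J) (f : W k J) (a : ℕ) (w : FreeMonoid (Option J)) :
    ((D i f).coeff a).coeff w =
      f.coeff (w * FreeMonoid.of (some i) * FreeMonoid.of none ^ a) := by
  induction f using W_induction_right generalizing a w with
  | h0 c =>
    rw [D_algebraMap, DCoeff_scalar]
    simp
  | hl o f ih =>
    cases o with
    | none =>
      have h1 : D i (f * lt none) = D i f * X := by
        have hz : (lt none : W k J) = z := rfl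
        rw [hz, D_mul, D_z, mul_zero, zero_add, eps_z, Polynomial.map_X]
      rw [h1]
      cases a with
      | zero =>
        rw [Polynomial.coeff_mul_X_zero, pow_zero, mul_one, DCoeff_lt_ne f (by simp)]
        simp
      | succ a =>
        rw [Polynomial.coeff_mul_X, ih, pow_succ, ← mul_assoc, DCoeff_lt_eq]
    | some j =>
      have h1 : D i (f * lt (some j)) = C f * (if j = i then 1 else 0) := by
        have hz : (lt (some j) : W k J) = x j := rfl
        rw [hz, D_mul, D_x, eps_x, Polynomial.map_zero, mul_zero, add_zero]
      rw [h1]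
      cases a with
      | zero =>
        rw [pow_zero, mul_one]
        by_cases hj : j = i
        · subst hj
          rw [if_pos rfl, mul_one, Polynomial.coeff_C_zero, DCoeff_lt_eq]
        · rw [if_neg hj, mul_zero, DCoeff_lt_ne f (by simpa using hj)]
          simp
      | succ a =>
        rw [pow_succ, ← mul_assoc, DCoeff_lt_ne f (by simp)]
        by_cases hj : j = i
        · rw [if_pos hj, mul_one, Polynomial.coeff_C_succ]
          simp
        · rw [if_neg hj, mul_zero]
          simp
  | hadd f g hf hg =>
    rw [D_add, Polynomial.coeff_add, MonoidAlgebra.coeff_add, Finsupp.add_apply, hf, hg,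
      MonoidAlgebra.coeff_add, Finsupp.add_apply]

theorem DCoeff_bound [Fintype J] (N : Set (W k J)) (h1 : ∀ f ∈ N, eps f = 0)
    (h2 : ∀ f ∈ N, ∀ i a, (D i f).coeff a ∈ N) (n : ℕ) : ∀ f ∈ N,
    (∀ w, f.coeff w ≠ 0 → (FreeMonoid.toList w).length < n) → f = 0 := by
  induction n with
  | zero =>
    intro f _ h
    have h3 : f.coeff = 0 := by
      ext w
      by_contra h4
      exact absurd (h w h4) (Nat.not_lt_zero _)
    exact MonoidAlgebra.coeff_eq_zero.1 h3
  | succ n ih =>
    intro f hf h
    have h3 : ∀ i, D i f = 0 := by
      intro i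
      ext1 a
      rw [Polynomial.coeff_zero]
      refine ih _ (h2 f hf i a) fun w hw => ?_
      rw [D_coeff] at hw
      have h4 := h _ hw
      rw [FreeMonoid.toList_mul, FreeMonoid.toList_mul, List.length_append,
        List.length_append, FreeMonoid.toList_of, List.length_singleton] at h4
      omega
    rw [decomp f, h1 f hf, map_zero, zero_add]
    refine Finset.sum_eq_zero fun i _ => ?_
    rw [h3 i, S_zero]

theorem ker_trivial [Fintype J] (N : Set (W k J)) (h1 : ∀ f ∈ N, eps f = 0)
    (h2 : ∀ f ∈ N, ∀ i a, (D i f).coeff a ∈ N) : ∀ f ∈ N, f = 0 := by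
  intro f hf
  refine DCoeff_bound N h1 h2 (f.coeff.support.sup (fun w => (FreeMonoid.toList w).length) + 1) f hf
    fun w hw => ?_
  exact Nat.lt_succ_of_le (Finset.le_sup (f := fun w => (FreeMonoid.toList w).length)
    (Finsupp.mem_support_iff.2 hw))

end

end Prt
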