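import Pool.Agent.Lib.Prt.Decomp

/-!
MODULE Prt.PiStar (1 h).  A retraction `π` of `W` with `π z = z`, `eps ∘ π = eps`; the matrix
`HH π i j = mp π (D j (π (x i)))` over `W[X]` is idempotent.

SKETCH.
* `mp` is `Polynomial.map`, so `mp_mul`, `mp_add` are `Polynomial.map_mul`, `Polynomial.map_add`
  (noncommutative coefficients are fine: `π.toRingHom` is a ring homomorphism), `mp_sum` is
  `Polynomial.map_sum`; `mp_mp`: `Polynomial.map_map` and `hπ` (or `ext` with `coeff_mp`).
* `pi_zin`: both sides are algebra homomorphisms `k[X] → W` in `p` (`Polynomial.algHom_ext`).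
* `pi_S`: by `Polynomial.induction_on'` (`S_add`, `S_monomial`), `π (z ^ a) = z ^ a`.
* `D_pi`: apply `π` to `decomp f`: `π f = zin (eps f) + ∑ i, S (mp π (D i f)) (π (x i))`
  then take `D j` (`D_add`, `D_zin`, `D_sum`, `D_S` with `eps (π (x i)) = eps (x i) = 0`).
* `lin_HH`: `lin` and `mp` are `Polynomial.map`, `eps (π f) = eps f`.
* `HH_idem`: `D_pi` with `f = π (x i)` and `π (π (x i)) = π (x i)` gives
  `D j (π (x i)) = ∑ l, mp π (D l (π (x i))) * D j (π (x l))`; apply `mp π` (`mp_mp`).
* `fix_expand`: for `π u = u`, `eps u = 0` put `c i = mp π (D i u)`; `decomp u` and `π` give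
  `u = ∑ i, S (c i) (π (x i))`; `D_pi` with `f = u` gives `D j u = ∑ i, c i * D j (π (x i))`
  and `mp π` of it is the second formula.
-/

namespace Prt

open Polynomial

noncomputable section

variable {k : Type*} [CommRing k] {J : Type*} [DecidableEq J]

omit [DecidableEq J] in
theorem mp_mul (π : W k J →ₐ[k] W k J) (p q : (W k J)[X]) : mp π (p * q) = mp π p * mp π q := by
  unfold mp
  exact Polynomial.map_mul _

omit [DecidableEq J] in
theorem mp_add (π : W k J →ₐ[k] W k J) (p q : (W k J)[X]) : mp π (p + q) = mp π p + mp π q := by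
  unfold mp
  exact Polynomial.map_add _

omit [DecidableEq J] in
theorem mp_sum (π : W k J →ₐ[k] W k J) {ι : Type*} (s : Finset ι) (f : ι → (W k J)[X]) :
    mp π (∑ i ∈ s, f i) = ∑ i ∈ s, mp π (f i) := by
  unfold mp
  exact Polynomial.map_sum _ _ _

omit [DecidableEq J] in
theorem coeff_mp (π : W k J →ₐ[k] W k J) (q : (W k J)[X]) (a : ℕ) :
    (mp π q).coeff a = π (q.coeff a) := by
  unfold mp
  rw [Polynomial.coeff_map]
  rfl

omit [DecidableEq J] in
theorem mp_mp (π : W k J →ₐ[k] W k J) (hπ : ∀ f, π (π f) = π f) (q : (W k J)[X]) :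
    mp π (mp π q) = mp π q := by
  refine Polynomial.ext fun a => ?_
  rw [coeff_mp, coeff_mp, hπ]

omit [DecidableEq J] in
theorem pi_zin (π : W k J →ₐ[k] W k J) (hz : π z = z) (p : k[X]) : π (zin p) = zin p := by
  have h : π.comp (zin (k := k) (J := J)) = zin := by
    refine Polynomial.algHom_ext ?_
    rw [AlgHom.comp_apply, zin_X, hz]
  exact DFunLike.congr_fun h p

omit [DecidableEq J] in
theorem pi_S (π : W k J →ₐ[k] W k J) (hz : π z = z) (q : (W k J)[X]) (y : W k J) :
    π (S q y) = S (mp π q) (π y) := by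
  induction q using Polynomial.induction_on' with
  | add p q hp hq => rw [S_add, map_add, hp, hq, mp_add, S_add]
  | monomial a c =>
    have h : mp π (monomial a c) = monomial a (π c) := by
      unfold mp
      rw [Polynomial.map_monomial]
      rfl
    rw [h, S_monomial, S_monomial, map_mul, map_mul, map_pow, hz]

theorem lin_HH (π : W k J →ₐ[k] W k J) (he : ∀ f, eps (π f) = eps f) (i j : J) :
    lin (HH π i j) = lin (D j (π (x i))) := by
  unfold lin HH
  refine Polynomial.ext fun a => ?_
  rw [Polynomial.coeff_map, Polynomial.coeff_map, coeff_mp]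
  exact he _

variable [Fintype J]

theorem D_pi (π : W k J →ₐ[k] W k J) (hz : π z = z) (he : ∀ f, eps (π f) = eps f)
    (f : W k J) (j : J) :
    D j (π f) = ∑ i, mp π (D i f) * D j (π (x i)) := by
  have h : π f = zin (eps f) + ∑ i, S (mp π (D i f)) (π (x i)) := by
    conv_lhs => rw [decomp f]
    rw [map_add, pi_zin π hz, map_sum]
    congr 1
    exact Finset.sum_congr rfl fun i _ => pi_S π hz _ _
  rw [h, D_add, D_zin, zero_add, D_sum]
  refine Finset.sum_congr rfl fun i _ => ?_
  exact D_S j _ _ (by rw [he, eps_x])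

theorem HH_idem (π : W k J →ₐ[k] W k J) (hπ : ∀ f, π (π f) = π f) (hz : π z = z)
    (he : ∀ f, eps (π f) = eps f) (i j : J) :
    ∑ l, HH π i l * HH π l j = HH π i j := by
  have h := D_pi π hz he (π (x i)) j
  rw [hπ] at h
  have h2 := congrArg (mp π) h
  rw [mp_sum] at h2
  unfold HH
  rw [h2]
  refine Finset.sum_congr rfl fun l _ => ?_
  rw [mp_mul, mp_mp π hπ]

theorem fix_expand (π : W k J →ₐ[k] W k J) (hπ : ∀ f, π (π f) = π f) (hz : π z = z)
    (he : ∀ f, eps (π f) = eps f) (u : W k J) (hu : π u = u) (hu0 : eps u = 0) :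
    u = ∑ i, S (mp π (D i u)) (π (x i)) ∧
      ∀ j, mp π (D j u) = ∑ i, mp π (D i u) * HH π i j := by
  refine ⟨?_, fun j => ?_⟩
  · conv_lhs => rw [← hu, decomp u]
    rw [map_add, hu0, map_zero, map_zero, zero_add, map_sum]
    exact Finset.sum_congr rfl fun i _ => pi_S π hz _ _
  · have h := D_pi π hz he u j
    rw [hu] at h
    have h2 := congrArg (mp π) h
    rw [mp_sum] at h2
    rw [h2]
    refine Finset.sum_congr rfl fun l _ => ?_
    rw [mp_mul, mp_mp π hπ]
    rfl

end

end Prt
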