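import Pool.Agent.Lib.Prt.SplitT
import Pool.Agent.Lib.Prt.PiStar
import Pool.Agent.Lib.Prt.DCoeff

/-!
MODULE Prt.EOne (1 h).  If the linear part of `π` is the identity then `π = id`.

SKETCH.  `H i j := (if i = j then 1 else 0) - HH π i j` is idempotent (`HH_idem`), and
`lin (H i j) = 0` by `lin_HH` and `h1` (`lin` is `Polynomial.map`, a ring homomorphism; `lin 1 = 1`).
So `split_poly` applies: `H i j = α i * β j`, and either `∑ β i * α i = 1` or `H = 0`.  The first
is impossible: `lin (α i) * lin (β j) = 0` for all `i, j` in the commutative ring `k[X][X]`, so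
`1 = lin (∑ β i * α i) = ∑ lin (β i) * lin (α i) = 0`.  So `HH π i j = if i = j then 1 else 0`.
Let `N = {f | π f = 0}`.  For `f ∈ N`: `eps f = eps (π f) = 0`.  By `D_pi`, `0 = D j (π f) = ∑ i, mp π (D i f) * D j (π (x i))`; apply
`mp π` (`mp_mp`, `mp_mul`, `mp_sum`): `0 = ∑ i, mp π (D i f) * HH π i j = mp π (D j f)`, i.e.
`π ((D j f).coeff a) = 0` for all `a` (`coeff_mp`).  `ker_trivial`: `π` is injective on `N`, i.e.
`π f = 0 → f = 0`.  Finally `π (π f - f) = 0`.
-/

namespace Prt

open Polynomial

noncomputable section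

namespace EOneAux

variable {k : Type*} [CommRing k] {J : Type*}

lemma lin_sub (p q : (W k J)[X]) : lin (p - q) = lin p - lin q := Polynomial.map_sub _

lemma lin_mul (p q : (W k J)[X]) : lin (p * q) = lin p * lin q := Polynomial.map_mul _

lemma lin_one : lin (1 : (W k J)[X]) = 1 := Polynomial.map_one _

lemma lin_zero : lin (0 : (W k J)[X]) = 0 := Polynomial.map_zero _

lemma lin_sum {ι : Type*} (s : Finset ι) (f : ι → (W k J)[X]) :
    lin (∑ i ∈ s, f i) = ∑ i ∈ s, lin (f i) := Polynomial.map_sum _ _ _

lemma mp_zero (π : W k J →ₐ[k] W k J) : mp π 0 = 0 := Polynomial.map_zero _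

lemma D_zero [DecidableEq J] (i : J) : D i (0 : W k J) = 0 := by
  unfold D
  rw [map_zero]
  rfl

end EOneAux

open EOneAux

theorem id_of_lin_one {k : Type*} [Field k] {J : Type*} [Fintype J] [DecidableEq J]
    (π : W k J →ₐ[k] W k J) (hπ : ∀ f, π (π f) = π f) (hz : π z = z)
    (he : ∀ f, eps (π f) = eps f)
    (h1 : ∀ i j, lin (D j (π (x i))) = if i = j then 1 else 0) :
    ∀ f, π f = f := by
  -- the idempotent matrix
  set P : Matrix J J (W k J)[X] := Matrix.of (HH π) with hP
  have hPP : P * P = P := by
    ext1 i j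
    rw [Matrix.mul_apply]
    exact HH_idem π hπ hz he i j
  have hQQ : (1 - P) * (1 - P) = 1 - P := by
    rw [mul_sub, sub_mul, sub_mul, hPP, one_mul, mul_one, one_mul, sub_self, sub_zero]
  have hlin : ∀ i j, lin ((1 - P) i j) = 0 := by
    intro i j
    rw [Matrix.sub_apply, lin_sub, hP, Matrix.of_apply, lin_HH π he, h1, Matrix.one_apply]
    split_ifs
    · rw [lin_one, sub_self]
    · rw [lin_zero, sub_self]
  obtain ⟨α, β, h2, h3⟩ := split_poly (fun i j => (1 - P) i j)
    (by
      intro i j
      rw [← Matrix.mul_apply, hQQ])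
    (by
      intro i i' j j'
      rw [hlin, hlin, hlin, hlin])
  have hH : ∀ i j, (1 - P) i j = 0 := by
    rcases h3 with h3 | h3
    · exfalso
      have h4 := congrArg lin h3
      rw [lin_sum, lin_one] at h4
      have h5 : ∑ i, lin (β i * α i) = 0 := by
        refine Finset.sum_eq_zero fun i _ => ?_
        rw [lin_mul, mul_comm, ← lin_mul, ← h2 i i, hlin]
      rw [h5] at h4
      exact zero_ne_one h4
    · exact h3
  have hHH : ∀ i j, HH π i j = if i = j then 1 else 0 := by
    intro i j
    have h4 := hH i j
    rw [Matrix.sub_apply, hP, Matrix.of_apply, Matrix.one_apply, sub_eq_zero] at h4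
    exact h4.symm
  have hker : ∀ f ∈ {f : W k J | π f = 0}, f = 0 := by
    apply ker_trivial
    · intro f hf
      have hf' : π f = 0 := hf
      rw [← he f, hf', map_zero]
    · intro f hf j a
      have hf' : π f = 0 := hf
      have h4 := D_pi π hz he f j
      rw [hf', D_zero] at h4
      have h5 := congrArg (mp π) h4
      rw [mp_zero, mp_sum] at h5
      have h6 : ∑ i, mp π (mp π (D i f) * D j (π (x i))) = mp π (D j f) := by
        calc ∑ i, mp π (mp π (D i f) * D j (π (x i)))
            = ∑ i, mp π (D i f) * HH π i j := by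
              refine Finset.sum_congr rfl fun i _ => ?_
              rw [mp_mul, mp_mp π hπ]
              rfl
          _ = mp π (D j f) := by
              rw [Finset.sum_eq_single j]
              · rw [hHH, if_pos rfl, mul_one]
              · intro i _ hij
                rw [hHH, if_neg hij, mul_zero]
              · intro h
                exact absurd (Finset.mem_univ j) h
      rw [h6] at h5
      show π ((D j f).coeff a) = 0
      rw [← coeff_mp, ← h5, Polynomial.coeff_zero]
  intro f
  have h4 := hker (π f - f) (by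
    show π (π f - f) = 0
    rw [map_sub, hπ, sub_self])
  exact sub_eq_zero.1 h4

end

end Prt
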