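import Pool.Agent.Lib.Prt.Decomp

/-!
MODULE Prt.Inj (0.4 h).  `W[X]` is a domain (instance found by `inferInstance`), so the
decomposition is faithful.

SKETCH.  `D_ne`: otherwise `y = 0` by `ext_D` (compare with `0`).  `S_inj`: `D j (S q y) = q * D j y`
with `D j y ≠ 0` for some `j`; so `q = 0`.  `exists_S`: for `u, y` in the kernel of `eps`, if
`D j u = q * D j y` for all `j` then `u = S q y` (`ext_D`, `D_S`, `eps_S`).
-/

namespace Prt

open Polynomial

noncomputable section

variable {k : Type*} [CommRing k] [IsDomain k] {J : Type*} [DecidableEq J] [Fintype J]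

theorem D_ne {y : W k J} (hy : eps y = 0) (hy0 : y ≠ 0) : ∃ j, D j y ≠ 0 := by
  by_contra hcon
  push Not at hcon
  refine hy0 (ext_D ?_ fun i => ?_)
  · rw [hy, map_zero]
  · rw [hcon i, D_zero]

theorem S_inj {y : W k J} (hy : eps y = 0) (hy0 : y ≠ 0) {q : (W k J)[X]} (h : S q y = 0) :
    q = 0 := by
  obtain ⟨j, hj⟩ := D_ne hy hy0
  have h1 := D_S j q y hy
  rw [h, D_zero] at h1
  exact (mul_eq_zero.1 h1.symm).resolve_right hj

theorem eq_S {u y : W k J} (hu : eps u = 0) (hy : eps y = 0) {q : (W k J)[X]}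
    (h : ∀ j, D j u = q * D j y) : u = S q y := by
  refine ext_D ?_ fun i => ?_
  · rw [hu, eps_S q y hy]
  · rw [h i, D_S i q y hy]

end

end Prt
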