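import Pool.Agent.Lib.Prt.DCoeff
import Pool.Agent.Lib.Prt.Inj

/-!
MODULE Prt.Free2 (1 h).  `z` and a nonzero `y` in the kernel of `eps` are free generators.

SKETCH.  `ψ : W k Unit →ₐ[k] W k J := hom (fun o => o.elim z (fun _ => y))`.  `eps (ψ f) = eps f`
(`hom_ext`-type comparison: both sides are algebra homomorphisms `W k Unit → k[X]`, `eps y = 0`).
`ψ (S q (x ())) = S (q.map ψ) y` (`Polynomial.induction_on'`, `S_monomial`), `ψ (zin p) = zin p`.
Apply `ker_trivial` to `N = {f | ψ f = 0}`: `eps f = eps (ψ f) = 0`; by `decomp f` (with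
`Fintype Unit`), `0 = ψ f = S ((D () f).map ψ) y`, so `(D () f).map ψ = 0` by `S_inj`, i.e.
`ψ ((D () f).coeff a) = 0` for all `a`.  So `ψ` is injective.  Finally
`FreeAlgebra.lift k ![z, y] = ψ ∘ θ` with `θ : FreeAlgebra k (Fin 2) →ₐ W k Unit` the lift of
`![z, x ()]`, which is injective because it has the left inverse
`hom (fun o => o.elim (ι 0) (fun _ => ι 1))` (`FreeAlgebra.hom_ext`).
-/

namespace Prt

open Polynomial

noncomputable section

namespace Free2Aux

variable {k : Type*} [Field k] {J : Type*}

/-- `z ↦ z`, `x () ↦ y` -/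
def psi (y : W k J) : W k Unit →ₐ[k] W k J := hom (fun o => o.elim z (fun _ => y))

@[simp] lemma psi_z (y : W k J) : psi y z = z := by simp [psi]

@[simp] lemma psi_x (y : W k J) (u : Unit) : psi y (x u) = y := by simp [psi]

lemma eps_psi {y : W k J} (hy : eps y = 0) (f : W k Unit) : eps (psi y f) = eps f := by
  have h : (eps (k := k) (J := J)).comp (psi y) = eps := by
    refine hom_ext ?_ fun j => ?_
    · simp
    · simp [hy]
  exact DFunLike.congr_fun h f

lemma psi_S (y : W k J) (q : (W k Unit)[X]) (u : W k Unit) :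
    psi y (S q u) = S (q.map (psi y).toRingHom) (psi y u) := by
  induction q using Polynomial.induction_on' with
  | add p q hp hq => rw [S_add, map_add, hp, hq, Polynomial.map_add, S_add]
  | monomial a c =>
    rw [S_monomial, Polynomial.map_monomial, S_monomial, map_mul, map_mul, map_pow, psi_z]
    rfl

lemma psi_injective [Fintype J] [DecidableEq J] (y : W k J) (hy : eps y = 0) (hy0 : y ≠ 0) :
    Function.Injective (psi y) := by
  rw [injective_iff_map_eq_zero]
  refine ker_trivial {f : W k Unit | psi y f = 0} ?_ ?_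
  · intro f hf
    rw [← eps_psi hy f, show psi y f = 0 from hf, map_zero]
  · intro f hf i a
    have hf0 : psi y f = 0 := hf
    have he : eps f = 0 := by rw [← eps_psi hy f, hf0, map_zero]
    have h1 : S ((D i f).map (psi y).toRingHom) y = 0 := by
      have h2 := decomp f
      rw [he, map_zero, zero_add, Fintype.sum_unique] at h2
      have h3 := psi_S y (D i f) (x i)
      rw [psi_x] at h3
      rw [← h3]
      have h4 : S (D i f) (x i) = f := h2.symm
      rw [h4, hf0]
    have h5 := S_inj hy hy0 h1
    have h6 : ((D i f).map (psi y).toRingHom).coeff a = 0 := by rw [h5, coeff_zero]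
    rw [Polynomial.coeff_map] at h6
    exact h6

end Free2Aux

open Free2Aux

theorem free_two {k : Type*} [Field k] {J : Type*} [Fintype J] [DecidableEq J]
    (y : W k J) (hy : eps y = 0) (hy0 : y ≠ 0) :
    Function.Injective (FreeAlgebra.lift k ![(z : W k J), y]) := by
  have h1 : FreeAlgebra.lift k ![(z : W k J), y] =
      (psi y).comp (FreeAlgebra.lift k ![(z : W k Unit), x ()]) := by
    apply FreeAlgebra.hom_ext
    funext i
    fin_cases i <;> simp
  have h2 : Function.Injective (FreeAlgebra.lift k ![(z : W k Unit), x ()]) := by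
    have h3 : (hom (fun o : Option Unit => o.elim (FreeAlgebra.ι k (0 : Fin 2))
        (fun _ => FreeAlgebra.ι k (1 : Fin 2)))).comp
        (FreeAlgebra.lift k ![(z : W k Unit), x ()]) = AlgHom.id k _ := by
      apply FreeAlgebra.hom_ext
      funext i
      fin_cases i <;> simp
    intro w w' hw
    have h4 := DFunLike.congr_fun h3 w
    have h5 := DFunLike.congr_fun h3 w'
    rw [AlgHom.comp_apply, AlgHom.id_apply] at h4 h5
    rw [← h4, ← h5, hw]
  rw [h1]
  exact (psi_injective y hy hy0).comp h2

theorem free_one {k : Type*} [Field k] {J : Type*} :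
    Function.Injective (FreeAlgebra.lift k ![(z : W k J)]) := by
  have h3 : (hom (fun o : Option J => o.elim (FreeAlgebra.ι k (0 : Fin 1))
      (fun _ => 0))).comp (FreeAlgebra.lift k ![(z : W k J)]) = AlgHom.id k _ := by
    apply FreeAlgebra.hom_ext
    funext i
    fin_cases i
    simp
  intro w w' hw
  have h4 := DFunLike.congr_fun h3 w
  have h5 := DFunLike.congr_fun h3 w'
  rw [AlgHom.comp_apply, AlgHom.id_apply] at h4 h5
  rw [← h4, ← h5, hw]

end

end Prt
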