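import Pool.Agent.Lib.Prt.XDeg
import Pool.Agent.Lib.Prt.PiStar

/-!
MODULE Prt.Gen (0.5 h).  If all fixed elements in `ker eps` are `S q y` with `q` fixed, then the
algebra of fixed elements is generated by `z` and `y`.

SKETCH.  Strong induction on `d r` (`exists_xdeg`) for `r` with `π r = r`.  `u := r - zin (eps r)` is
fixed (`pi_zin`) with `eps u = 0`, so `u = S q y`, `mp π q = q`.  For every `a` with `q.coeff a ≠ 0`:
`π (q.coeff a) = q.coeff a` (`coeff_mp`) and `d (q.coeff a) < d u ≤ max (d r) 0 = d r`, so
`q.coeff a ∈ adjoin`.  `S q y` is a finite sum of products `q_a * y * z ^ a` (`Polynomial.sum`),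
`zin (eps r)` is a polynomial in `z` (`Polynomial.aeval`, `Algebra.adjoin` closed:
`Polynomial.aeval_mem_adjoin_singleton` and `Algebra.adjoin_mono`).
-/

namespace Prt

open Polynomial

noncomputable section

theorem fixed_generated {k : Type*} [Field k] {J : Type*} [Fintype J] [DecidableEq J]
    (π : W k J →ₐ[k] W k J) (hz : π z = z) (y : W k J) (hy : eps y = 0) (hy0 : y ≠ 0)
    (h : ∀ u, π u = u → eps u = 0 → ∃ q, mp π q = q ∧ u = S q y) :
    ∀ r, π r = r → r ∈ Algebra.adjoin k ({z, y} : Set (W k J)) := by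
  obtain ⟨d, hadd, hneg, hzin, hS⟩ := exists_xdeg k J
  have hzm : (z : W k J) ∈ Algebra.adjoin k ({z, y} : Set (W k J)) :=
    Algebra.subset_adjoin (by simp)
  have hym : (y : W k J) ∈ Algebra.adjoin k ({z, y} : Set (W k J)) :=
    Algebra.subset_adjoin (by simp)
  have hzinm : ∀ p : k[X], (zin p : W k J) ∈ Algebra.adjoin k ({z, y} : Set (W k J)) := by
    intro p
    have h1 : (zin p : W k J) ∈ Algebra.adjoin k ({z} : Set (W k J)) :=
      Polynomial.aeval_mem_adjoin_singleton k (z : W k J)
    exact Algebra.adjoin_mono (by simp) h1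
  intro r
  induction hn : d r using Nat.strong_induction_on generalizing r with
  | _ n ih =>
    intro hr
    let u : W k J := r - zin (eps r)
    have hu : u = r - zin (eps r) := rfl
    have hpu : π u = u := by
      rw [hu, map_sub, hr, pi_zin π hz]
    have heu : eps u = 0 := by
      rw [hu, map_sub, eps_zin, sub_self]
    obtain ⟨q, hq, huq⟩ := h u hpu heu
    have hdu : d u ≤ d r := by
      rw [hu, sub_eq_add_neg]
      refine (hadd _ _).trans ?_
      rw [hneg, hzin]
      exact max_le le_rfl (Nat.zero_le _)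
    have hru : r = u + zin (eps r) := by
      rw [hu, sub_add_cancel]
    rw [hru]
    refine Subalgebra.add_mem _ ?_ (hzinm _)
    rw [huq]
    unfold S
    rw [Polynomial.sum_def]
    refine Subalgebra.sum_mem _ fun a ha => ?_
    have ha' : q.coeff a ≠ 0 := Polynomial.mem_support_iff.1 ha
    refine Subalgebra.mul_mem _ (Subalgebra.mul_mem _ ?_ hym) (Subalgebra.pow_mem _ hzm _)
    have h1 : d (q.coeff a) < n := by
      have h2 := hS y q a hy hy0 ha'
      rw [← huq] at h2
      omega
    refine ih _ h1 (q.coeff a) rfl ?_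
    rw [← coeff_mp, hq]

end

end Prt
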