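import Mathlib

/-!
MODULE Prt.Minors (1.2 h).  Idempotent matrices over a commutative domain: pure linear algebra.

SKETCH.
* `idem_card_two`: as a matrix, `E * E = E`, so `adjugate E * E * (E - 1) = 0`, i.e.
  `det E • (E - 1) = 0`.  If `det E ≠ 0` then `E = 1` (domain).  If `det E = 0`: `card J = 0` is trivial;
  for `card J = 1` all indices are equal (`mul_comm`); for `card J = 2`, transport to `Fin 2`
  (`Fintype.equivFinOfCardEq`, `Matrix.det_reindex_self`, `Matrix.det_fin_two`) or argue directly: the
  cases `i = i'` and `j = j'` are `mul_comm`; otherwise `{i, i'} = {j, j'} = J` and the identity is `± det E = 0`.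
* `minors_of_mod`: let `m l l' j j' = E l j * E l' j' - E l j' * E l' j` (antisymmetric in `(l, l')`, zero
  for `l = l'`), and `I` the ideal spanned by the (finitely many) `m i i' j j'`.  From
  `E i j = ∑ l, E i l * E l j`: `m i i' j j' = ∑ l, ∑ l', E i l * E i' l' * m l l' j j'`; split the double sum into
  `l < l'`, `l = l'`, `l' < l` (`l = l'` gives 0) and swap names in the last part:
  `= ∑ over l < l' of (E i l * E i' l' - E i l' * E i' l) * m l l' j j' ∈ I * I`.  So `I` is idempotent and
  finitely generated, hence generated by an idempotent element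
  (`Ideal.isIdempotentElem_iff_of_fg`), which in a domain is `0` or `1`; it is not `1` because
  `I ≤ RingHom.ker χ ≠ ⊤`.  So `I = 0`.
-/

namespace Prt

theorem idem_card_two {A : Type*} [CommRing A] [IsDomain A] {J : Type*} [Fintype J]
    [DecidableEq J] (hJ : Fintype.card J ≤ 2) (E : J → J → A)
    (hE : ∀ i j, ∑ l, E i l * E l j = E i j) :
    (∀ i i' j j', E i j * E i' j' = E i j' * E i' j) ∨
      ∀ i j, E i j = if i = j then 1 else 0 := by
  let M : Matrix J J A := Matrix.of E
  have hMM : M * M = M := by
    ext i j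
    rw [Matrix.mul_apply]
    exact hE i j
  by_cases hdet : M.det = 0
  · left
    intro i i' j j'
    by_cases h1 : i = i'
    · subst h1
      ring
    by_cases h2 : j = j'
    · subst h2
      ring
    have hc : Fintype.card J = 2 := by
      have : 1 < Fintype.card J := Fintype.one_lt_card_iff.2 ⟨i, i', h1⟩
      omega
    have e : J ≃ Fin 2 := Fintype.equivFinOfCardEq hc
    have h3 : (Matrix.reindex e e M).det = 0 := by rw [Matrix.det_reindex_self, hdet]
    rw [Matrix.det_fin_two] at h3
    simp only [Matrix.reindex_apply, Matrix.submatrix_apply] at h3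
    have h4 : E (e.symm 0) (e.symm 0) * E (e.symm 1) (e.symm 1) -
        E (e.symm 0) (e.symm 1) * E (e.symm 1) (e.symm 0) = 0 := h3
    obtain ⟨a, rfl⟩ := e.symm.surjective i
    obtain ⟨a', rfl⟩ := e.symm.surjective i'
    obtain ⟨c, rfl⟩ := e.symm.surjective j
    obtain ⟨c', rfl⟩ := e.symm.surjective j'
    have k1 : a ≠ a' := fun h => h1 (by rw [h])
    have k2 : c ≠ c' := fun h => h2 (by rw [h])
    match a, a', k1 with
    | 0, 1, _ =>
      match c, c', k2 with
      | 0, 1, _ => linear_combination h4
      | 1, 0, _ => linear_combination -h4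
      | 0, 0, h => exact absurd rfl h
      | 1, 1, h => exact absurd rfl h
    | 1, 0, _ =>
      match c, c', k2 with
      | 0, 1, _ => linear_combination -h4
      | 1, 0, _ => linear_combination h4
      | 0, 0, h => exact absurd rfl h
      | 1, 1, h => exact absurd rfl h
    | 0, 0, h => exact absurd rfl h
    | 1, 1, h => exact absurd rfl h
  · right
    have h1 : M.adjugate * M * (M - 1) = 0 := by
      rw [Matrix.mul_assoc, Matrix.mul_sub, hMM, Matrix.mul_one, sub_self, Matrix.mul_zero]
    rw [Matrix.adjugate_mul, Matrix.smul_mul, Matrix.one_mul] at h1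
    intro i j
    have h2 := congrFun (congrFun h1 i) j
    simp only [Matrix.smul_apply, Matrix.sub_apply, smul_eq_mul, Matrix.zero_apply] at h2
    rcases mul_eq_zero.1 h2 with h3 | h3
    · exact absurd h3 hdet
    · rw [sub_eq_zero, Matrix.one_apply] at h3
      exact h3

theorem minors_of_mod {A B : Type*} [CommRing A] [IsDomain A] [CommRing B] [Nontrivial B]
    (χ : A →+* B) {J : Type*} [Fintype J] [LinearOrder J] (E : J → J → A)
    (hE : ∀ i j, ∑ l, E i l * E l j = E i j)
    (h : ∀ i i' j j', χ (E i j) * χ (E i' j') = χ (E i j') * χ (E i' j)) :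
    ∀ i i' j j', E i j * E i' j' = E i j' * E i' j := by
  let m : J → J → J → J → A := fun i i' j j' => E i j * E i' j' - E i j' * E i' j
  have hm : ∀ i i' j j', m i i' j j' = E i j * E i' j' - E i j' * E i' j := fun _ _ _ _ => rfl
  let I : Ideal A := Ideal.span (Set.range fun q : J × J × J × J => m q.1 q.2.1 q.2.2.1 q.2.2.2)
  have hmI : ∀ i i' j j', m i i' j j' ∈ I := fun i i' j j' =>
    Ideal.subset_span ⟨(i, i', j, j'), rfl⟩
  have hfg : I.FG := Submodule.fg_span (Set.finite_range _)
  have key : ∀ i i' j j', m i i' j j' = ∑ l, ∑ l', if l < l' then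
      (m i i' l l') * m l l' j j' else 0 := by
    intro i i' j j'
    have e1 : m i i' j j' = ∑ l, ∑ l', E i l * E i' l' * m l l' j j' := by
      rw [hm]
      nth_rewrite 1 [← hE i j, ← hE i' j', ← hE i j', ← hE i' j]
      rw [Finset.sum_mul_sum, Finset.sum_mul_sum, ← Finset.sum_sub_distrib]
      refine Finset.sum_congr rfl fun l _ => ?_
      rw [← Finset.sum_sub_distrib]
      refine Finset.sum_congr rfl fun l' _ => ?_
      rw [hm]
      ring
    have e2 : ∀ l l', E i l * E i' l' * m l l' j j' =
        (if l < l' then E i l * E i' l' * m l l' j j' else 0) +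
        (if l' < l then E i l * E i' l' * m l l' j j' else 0) := by
      intro l l'
      rcases lt_trichotomy l l' with h1 | h1 | h1
      · rw [if_pos h1, if_neg (not_lt.2 h1.le), add_zero]
      · subst h1
        rw [if_neg (lt_irrefl l), hm]
        ring
      · rw [if_neg (not_lt.2 h1.le), if_pos h1, zero_add]
    have e3 : ∑ l, ∑ l', (if l' < l then E i l * E i' l' * m l l' j j' else 0) =
        ∑ l, ∑ l', (if l < l' then E i l' * E i' l * m l' l j j' else 0) := by
      rw [Finset.sum_comm]
    rw [e1, Finset.sum_congr rfl fun l _ => Finset.sum_congr rfl fun l' _ => e2 l l']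
    simp only [Finset.sum_add_distrib]
    rw [e3, ← Finset.sum_add_distrib]
    refine Finset.sum_congr rfl fun l _ => ?_
    rw [← Finset.sum_add_distrib]
    refine Finset.sum_congr rfl fun l' _ => ?_
    split_ifs
    · simp only [hm]
      ring
    · ring
  have hidem : IsIdempotentElem I := by
    refine le_antisymm Ideal.mul_le_right ?_
    refine Ideal.span_le.2 ?_
    rintro _ ⟨⟨i, i', j, j'⟩, rfl⟩
    change m i i' j j' ∈ I * I
    rw [key]
    refine Ideal.sum_mem _ fun l _ => Ideal.sum_mem _ fun l' _ => ?_
    split_ifs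
    · exact Ideal.mul_mem_mul (hmI _ _ _ _) (hmI _ _ _ _)
    · exact Ideal.zero_mem _
  obtain ⟨e, he, hIe⟩ := (I.isIdempotentElem_iff_of_fg hfg).1 hidem
  have hker : I ≤ RingHom.ker χ := by
    refine Ideal.span_le.2 ?_
    rintro _ ⟨⟨i, i', j, j'⟩, rfl⟩
    change m i i' j j' ∈ RingHom.ker χ
    rw [RingHom.mem_ker, hm, map_sub, map_mul, map_mul, h, sub_self]
  have he0 : e = 0 := by
    have h1 : e * (e - 1) = 0 := by
      have : e * e = e := he
      rw [mul_sub, this, mul_one, sub_self]
    rcases mul_eq_zero.1 h1 with h2 | h2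
    · exact h2
    · exfalso
      rw [sub_eq_zero] at h2
      have h3 : (1 : A) ∈ I := by
        rw [hIe, h2]
        exact Ideal.subset_span rfl
      have h4 := hker h3
      rw [RingHom.mem_ker, map_one] at h4
      exact one_ne_zero h4
  intro i i' j j'
  have h1 := hmI i i' j j'
  rw [hIe, he0, Ideal.mem_span_singleton, zero_dvd_iff] at h1
  exact sub_eq_zero.1 h1

end Prt
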