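import Pool.Agent.Lib.Prt.CommMinors

/-!
MODULE Prt.Norm (0.8 h).  Normalisation of a retraction with `π z = z`.

SKETCH.  `c i := eps (π (x i))`; `s := hom (fun o => o.elim z (fun i => x i + zin (c i)))`,
`s' := hom (fun o => o.elim z (fun i => x i - zin (c i)))`; `s (zin p) = zin p`, `s' (zin p) = zin p`, so
`s (s' f) = f = s' (s f)` (`hom_ext`), `σ := AlgEquiv.ofAlgHom s s' _ _`.
`eps (π f) = eps (s f)` for all `f` (both are algebra homomorphisms in `f`, `hom_ext`-type comparison with
target `k[X]`: on `z` both are `X`, on `x i` both are `c i`).  Therefore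
`eps (σ (π (σ.symm f))) = eps (π (π (σ.symm f))) = eps (π (σ.symm f)) = eps (σ (σ.symm f)) = eps f`.
`kap (s f) = kap (s (kap f))` (both are algebra homomorphisms in `f`: on `z`: `kap z = 0` on both sides; on
`x i`: `kap (x i) = x i`); so `kap f = 0 → kap (s f) = 0`; the same for `s'`.
(An extensionality lemma for algebra homomorphisms `W k J →ₐ[k] A` is `hom_ext` in `Defs`.)
-/

namespace Prt

open Polynomial

noncomputable section

theorem exists_normal {k : Type*} [CommRing k] {J : Type*}
    (π : W k J →ₐ[k] W k J) (hπ : ∀ f, π (π f) = π f) (hz : π z = z) :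
    ∃ σ : W k J ≃ₐ[k] W k J, σ z = z ∧ (∀ f, eps (σ (π (σ.symm f))) = eps f) ∧
      (∀ f, kap f = 0 → kap (σ f) = 0) ∧ (∀ f, kap f = 0 → kap (σ.symm f) = 0) := by
  let c : J → k[X] := fun i => eps (π (x i))
  let s : W k J →ₐ[k] W k J := hom (fun o => o.elim z (fun i => x i + zin (c i)))
  let s' : W k J →ₐ[k] W k J := hom (fun o => o.elim z (fun i => x i - zin (c i)))
  have sz : s z = z := by simp [s]
  have s'z : s' z = z := by simp [s']
  have sx : ∀ i, s (x i) = x i + zin (c i) := fun i => by simp [s]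
  have s'x : ∀ i, s' (x i) = x i - zin (c i) := fun i => by simp [s']
  have szin : ∀ p : k[X], s (zin p) = zin p := by
    intro p
    have h1 : s.comp (zin : k[X] →ₐ[k] W k J) = zin := by
      ext
      simp [sz]
    exact DFunLike.congr_fun h1 p
  have s'zin : ∀ p : k[X], s' (zin p) = zin p := by
    intro p
    have h1 : s'.comp (zin : k[X] →ₐ[k] W k J) = zin := by
      ext
      simp [s'z]
    exact DFunLike.congr_fun h1 p
  have hss' : s.comp s' = AlgHom.id k _ := by
    refine hom_ext ?_ fun i => ?_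
    · simp [sz, s'z]
    · simp [sx, s'x, szin]
  have hs's : s'.comp s = AlgHom.id k _ := by
    refine hom_ext ?_ fun i => ?_
    · simp [sz, s'z]
    · simp [sx, s'x, s'zin]
  let σ : W k J ≃ₐ[k] W k J := AlgEquiv.ofAlgHom s s' hss' hs's
  have hσ : ∀ f, σ f = s f := fun f => rfl
  have hσ' : ∀ f, σ.symm f = s' f := fun f => rfl
  have h1 : ∀ f, eps (π f) = eps (s f) := by
    intro f
    have h2 : (eps : W k J →ₐ[k] k[X]).comp π = eps.comp s := by
      refine hom_ext ?_ fun i => ?_
      · simp [sz, hz]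
      · simp [sx, c]
    exact DFunLike.congr_fun h2 f
  have hk : ∀ t : W k J →ₐ[k] W k J, t z = z → ∀ f, kap f = 0 → kap (t f) = 0 := by
    intro t ht f hf
    have h2 : (kap : W k J →ₐ[k] W k J).comp t = kap.comp (t.comp kap) := by
      refine hom_ext ?_ fun i => ?_
      · simp [ht, kap]
      · simp [kap]
    have h3 := DFunLike.congr_fun h2 f
    simp only [AlgHom.comp_apply] at h3
    rw [h3, hf, map_zero, map_zero]
  refine ⟨σ, ?_, ?_, ?_, ?_⟩
  · rw [hσ, sz]
  · intro f
    rw [hσ, ← h1, hπ, h1, ← hσ, AlgEquiv.apply_symm_apply]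
  · intro f hf
    rw [hσ]
    exact hk s sz f hf
  · intro f hf
    rw [hσ']
    exact hk s' s'z f hf

end

end Prt
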