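import Pool.Agent.Lib.Prt.OneSided
import Pool.Agent.Lib.Prt.Gen
import Pool.Agent.Lib.Prt.Free2
import Pool.Agent.Lib.Prt.Minors
import Pool.Agent.Lib.Prt.EOne
import Pool.Agent.Lib.Prt.Norm
import Pool.Agent.Lib.Prt.Cent

/-!
Assembly of the main theorem for the model `W k J` of the free algebra.
-/

namespace Prt

open Polynomial

noncomputable section

/-- the main theorem for normalised retractions -/
theorem core_normal {k : Type*} [Field k] {J : Type*} [Fintype J] [DecidableEq J]
    (π : W k J →ₐ[k] W k J) (hπ : ∀ f, π (π f) = π f) (hz : π z = z)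
    (he : ∀ f, eps (π f) = eps f)
    (hm : (∀ i i' j j', lin (D j (π (x i))) * lin (D j' (π (x i'))) =
      lin (D j' (π (x i))) * lin (D j (π (x i')))) ∨
        ∀ i j, lin (D j (π (x i))) = if i = j then 1 else 0) :
    (∀ f, π f = f) ∨ (∀ r, π r = r → r ∈ Algebra.adjoin k ({z} : Set (W k J))) ∨
      ∃ y, π y = y ∧ Function.Injective (FreeAlgebra.lift k ![(z : W k J), y]) ∧
        ∀ r, π r = r → r ∈ Algebra.adjoin k ({z, y} : Set (W k J)) := by
  rcases hm with hm | hm
  · right
    rcases one_sided π hπ hz he hm with h0 | ⟨y, hy, hpy, hy0, h⟩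
    · left
      intro r hr
      have h1 : r - zin (eps r) = 0 := by
        apply h0
        · rw [map_sub, hr, pi_zin π hz]
        · rw [map_sub, eps_zin, sub_self]
      rw [sub_eq_zero] at h1
      rw [h1, zin]
      exact Polynomial.aeval_mem_adjoin_singleton k _
    · right
      exact ⟨y, hpy, free_two y hy hy0, fixed_generated π hz y hy hy0 h⟩
  · left
    exact id_of_lin_one π hπ hz he hm

theorem lin_idem {k : Type*} [Field k] {J : Type*} [Fintype J] [DecidableEq J]
    (π : W k J →ₐ[k] W k J) (hπ : ∀ f, π (π f) = π f) (hz : π z = z)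
    (he : ∀ f, eps (π f) = eps f) (i j : J) :
    ∑ l, lin (D l (π (x i))) * lin (D j (π (x l))) = lin (D j (π (x i))) := by
  have h := congrArg (Polynomial.map (eps (k := k) (J := J)).toRingHom) (HH_idem π hπ hz he i j)
  rw [Polynomial.map_sum] at h
  simp only [Polynomial.map_mul] at h
  have e : ∀ a b : J, Polynomial.map (eps (k := k) (J := J)).toRingHom (HH π a b) =
      lin (D b (π (x a))) := fun a b => lin_HH π he a b
  simpa only [e] using h

theorem core {k : Type*} [Field k] {n : ℕ}
    (π : W k (Fin n) →ₐ[k] W k (Fin n)) (hπ : ∀ f, π (π f) = π f)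
    {p : k[X]} (hp : 0 < p.natDegree) (hzp : π (zin p) = zin p)
    (hn : n ≤ 2 ∨ ∀ f g, kap (π f * π g - π g * π f) = 0) :
    π z = z ∧ ((∀ f, π f = f) ∨
      (∀ r, π r = r → r ∈ Algebra.adjoin k ({z} : Set (W k (Fin n)))) ∨
      ∃ y, π y = y ∧ Function.Injective (FreeAlgebra.lift k ![(z : W k (Fin n)), y]) ∧
        ∀ r, π r = r → r ∈ Algebra.adjoin k ({z, y} : Set (W k (Fin n)))) := by
  have hz : π z = z := pi_z π hπ hp hzp
  refine ⟨hz, ?_⟩
  obtain ⟨σ, hσz, hσe, hσk, hσk'⟩ := exists_normal π hπ hz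
  set ρ : W k (Fin n) →ₐ[k] W k (Fin n) :=
    (σ.toAlgHom.comp π).comp σ.symm.toAlgHom with hρ
  have hρa : ∀ f, ρ f = σ (π (σ.symm f)) := fun f => rfl
  have hρi : ∀ f, ρ (ρ f) = ρ f := by
    intro f
    rw [hρa, hρa, AlgEquiv.symm_apply_apply, hπ]
  have hsz : σ.symm z = z := by rw [AlgEquiv.symm_apply_eq, hσz]
  have hρz : ρ z = z := by rw [hρa, hsz, hz, hσz]
  have hρe : ∀ f, eps (ρ f) = eps f := hσe
  have hm : (∀ i i' j j', lin (D j (ρ (x i))) * lin (D j' (ρ (x i'))) =
      lin (D j' (ρ (x i))) * lin (D j (ρ (x i')))) ∨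
        ∀ i j, lin (D j (ρ (x i))) = if i = j then 1 else 0 := by
    rcases hn with hn | hn
    · have := idem_card_two (J := Fin n) (by simpa using hn)
        (fun i j => lin (D j (ρ (x i)))) (fun i j => lin_idem ρ hρi hρz hρe i j)
      simpa using this
    · left
      have hc : ∀ f g, kap (ρ f * ρ g - ρ g * ρ f) = 0 := by
        intro f g
        have h1 : ρ f * ρ g - ρ g * ρ f =
            σ (π (σ.symm f) * π (σ.symm g) - π (σ.symm g) * π (σ.symm f)) := by
          rw [hρa, hρa, map_sub, map_mul σ, map_mul σ]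
        rw [h1]
        exact hσk _ (hn _ _)
      have := minors_of_mod (J := Fin n) (ev (k := k))
        (fun i j => lin (D j (ρ (x i)))) (fun i j => lin_idem ρ hρi hρz hρe i j)
        (fun i i' j j' => comm_minors ρ hρe hc i i' j j')
      simpa using this
  have key : ∀ r, π r = r → ρ (σ r) = σ r := by
    intro r hr
    rw [hρa, AlgEquiv.symm_apply_apply, hr]
  have back : ∀ (s : Set (W k (Fin n))) (r : W k (Fin n)),
      σ r ∈ Algebra.adjoin k s → r ∈ Algebra.adjoin k (σ.symm '' s) := by
    intro s r h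
    have h1 : σ.symm (σ r) ∈ (Algebra.adjoin k s).map σ.symm.toAlgHom :=
      ⟨σ r, h, rfl⟩
    rw [AlgEquiv.symm_apply_apply, AlgHom.map_adjoin] at h1
    exact h1
  rcases core_normal ρ hρi hρz hρe hm with h | h | ⟨y, hy1, hy2, hy3⟩
  · left
    intro f
    have := h (σ f)
    rw [hρa, AlgEquiv.symm_apply_apply] at this
    exact σ.injective this
  · right; left
    intro r hr
    have := back _ r (h _ (key r hr))
    rwa [Set.image_singleton, hsz] at this
  · right; right
    refine ⟨σ.symm y, ?_, ?_, ?_⟩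
    · have := hy1
      rw [hρa] at this
      rw [AlgEquiv.eq_symm_apply, this]
    · have h1 : (FreeAlgebra.lift k ![(z : W k (Fin n)), σ.symm y]) =
          σ.symm.toAlgHom.comp (FreeAlgebra.lift k ![(z : W k (Fin n)), y]) := by
        apply FreeAlgebra.hom_ext
        funext i
        fin_cases i
        · simp [hsz]
        · simp
      rw [h1]
      exact σ.symm.injective.comp hy2
    · intro r hr
      have := back _ r (hy3 _ (key r hr))
      rwa [Set.image_pair, hsz] at this

end

end Prt
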