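import Pool.Agent.Lib.Prt.Defs

/-!
MODULE Prt.DBasic (0.7 h).  Elementary rules for the derivations `D i : W → W[X]`.

SKETCH.  Prove first, for all `f`,
  `Theta i f 0 0 = C f`, `Theta i f 1 0 = 0`, `Theta i f 1 1 = (eps f).map (algebraMap k W)`:
each side (for 0 0 and 1 1 together with the vanishing of the corner 1 0) is handled by
`W_induction_left` (or: compare two algebra homomorphisms with `hom_ext` after showing the
corner 1 0 vanishes).  `D_mul` is then the 0 1 entry of `Theta i (f * g) = Theta i f * Theta i g`
(`Matrix.mul_apply`, `Fin.sum_univ_two`).  `D_z`, `D_x` by unfolding `hom_z`, `hom_x`;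
`D_algebraMap`: `Theta i` is an algebra homomorphism and off-diagonal entries of scalars vanish;
`D_zpow` by induction with `D_mul`, `D_z`; `D_zin` by `Polynomial.induction_on`.
The last two statements are immediate from `D_mul` and `eps y = 0`.
-/

namespace Prt

open Polynomial

noncomputable section

variable {k : Type*} [CommRing k] {J : Type*} [DecidableEq J]

theorem DBasic_theta_z (i : J) : Theta i (z : W k J) = !![C z, 0; 0, X] := by
  simp [Theta]

theorem DBasic_theta_x (i j : J) :
    Theta i (x j : W k J) = !![C (x j), if j = i then 1 else 0; 0, 0] := by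
  simp [Theta]

theorem DBasic_theta_algebraMap (i : J) (c : k) (a b : Fin 2) :
    Theta i (algebraMap k (W k J) c) a b = if a = b then C (algebraMap k (W k J) c) else 0 := by
  rw [AlgHom.commutes, Matrix.algebraMap_matrix_apply, Polynomial.algebraMap_apply]

theorem DBasic_theta (i : J) (f : W k J) : Theta i f 0 0 = C f ∧ Theta i f 1 0 = 0 ∧
    Theta i f 1 1 = (eps f).map (algebraMap k (W k J)) := by
  induction f using W_induction_left with
  | h0 c =>
    refine ⟨?_, ?_, ?_⟩
    · rw [DBasic_theta_algebraMap, if_pos rfl]
    · rw [DBasic_theta_algebraMap, if_neg (by decide)]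
    · rw [DBasic_theta_algebraMap, if_pos rfl, AlgHom.commutes, Polynomial.algebraMap_apply,
        Polynomial.map_C]
      rfl
  | hl o f ih =>
    obtain ⟨h1, h2, h3⟩ := ih
    cases o with
    | none =>
      have hz : (lt none : W k J) = z := rfl
      rw [hz]
      refine ⟨?_, ?_, ?_⟩
      · rw [map_mul, Matrix.mul_apply, Fin.sum_univ_two, DBasic_theta_z, h1, h2]
        simp
      · rw [map_mul, Matrix.mul_apply, Fin.sum_univ_two, DBasic_theta_z, h1, h2]
        simp
      · rw [map_mul, Matrix.mul_apply, Fin.sum_univ_two, DBasic_theta_z, h3, map_mul,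
          Polynomial.map_mul]
        simp
    | some j =>
      have hz : (lt (some j) : W k J) = x j := rfl
      rw [hz]
      refine ⟨?_, ?_, ?_⟩
      · rw [map_mul, Matrix.mul_apply, Fin.sum_univ_two, DBasic_theta_x, h1, h2]
        simp
      · rw [map_mul, Matrix.mul_apply, Fin.sum_univ_two, DBasic_theta_x, h1, h2]
        simp
      · rw [map_mul, Matrix.mul_apply, Fin.sum_univ_two, DBasic_theta_x, h3, map_mul,
          Polynomial.map_mul]
        simp
  | hadd f g hf hg =>
    obtain ⟨h1, h2, h3⟩ := hf
    obtain ⟨g1, g2, g3⟩ := hg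
    refine ⟨?_, ?_, ?_⟩
    · rw [map_add, Matrix.add_apply, h1, g1, map_add]
    · rw [map_add, Matrix.add_apply, h2, g2, add_zero]
    · rw [map_add, Matrix.add_apply, h3, g3, map_add, Polynomial.map_add]

theorem D_add (i : J) (f g : W k J) : D i (f + g) = D i f + D i g := by
  unfold D
  rw [map_add, Matrix.add_apply]

theorem D_zero (i : J) : D i (0 : W k J) = 0 := by
  unfold D
  rw [map_zero]
  rfl

theorem D_mul (i : J) (f g : W k J) :
    D i (f * g) = C f * D i g + D i f * (eps g).map (algebraMap k (W k J)) := by
  unfold D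
  rw [map_mul, Matrix.mul_apply, Fin.sum_univ_two, (DBasic_theta i f).1, (DBasic_theta i g).2.2]

theorem D_algebraMap (i : J) (c : k) : D i (algebraMap k (W k J) c) = 0 := by
  unfold D
  rw [DBasic_theta_algebraMap, if_neg (by decide)]

theorem D_z (i : J) : D i (z : W k J) = 0 := by
  unfold D
  rw [DBasic_theta_z]
  rfl

theorem D_x (i j : J) : D i (x j : W k J) = if j = i then 1 else 0 := by
  unfold D
  rw [DBasic_theta_x]
  rfl

theorem DBasic_zpow (i : J) (n : ℕ) : D i ((z : W k J) ^ n) = 0 := by
  induction n with
  | zero =>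
    rw [pow_zero, ← map_one (algebraMap k (W k J))]
    exact D_algebraMap i 1
  | succ n ih => rw [pow_succ, D_mul, ih, D_z, mul_zero, zero_mul, add_zero]

theorem D_zin (i : J) (p : k[X]) : D i (zin p : W k J) = 0 := by
  induction p using Polynomial.induction_on with
  | C a =>
    have h : (zin (C a) : W k J) = algebraMap k (W k J) a := by simp [zin]
    rw [h, D_algebraMap]
  | add p q hp hq => rw [map_add, D_add, hp, hq, add_zero]
  | monomial n a _ =>
    have h : (zin (C a * X ^ (n + 1)) : W k J) = algebraMap k (W k J) a * z ^ (n + 1) := by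
      simp [zin]
    rw [h, D_mul, DBasic_zpow, D_algebraMap, mul_zero, zero_mul, add_zero]

theorem D_sum (i : J) {ι : Type*} (s : Finset ι) (f : ι → W k J) :
    D i (∑ a ∈ s, f a) = ∑ a ∈ s, D i (f a) := by
  classical
  induction s using Finset.induction_on with
  | empty => rw [Finset.sum_empty, Finset.sum_empty, D_zero]
  | insert a s ha ih => rw [Finset.sum_insert ha, Finset.sum_insert ha, D_add, ih]

/-- the formula that makes `D` left linear and `z`-linear on the kernel of `eps` -/
theorem D_mul_mul_zpow (i : J) (c y : W k J) (a : ℕ) (hy : eps y = 0) :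
    D i (c * y * z ^ a) = C c * D i y * X ^ a := by
  rw [D_mul, DBasic_zpow, mul_zero, zero_add, D_mul, hy, Polynomial.map_zero, mul_zero, add_zero,
    map_pow, eps_z, Polynomial.map_pow, Polynomial.map_X]

end

end Prt
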