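import Pool.Agent.Lib.Prt.DBasic

/-!
MODULE Prt.Decomp (1 h).  The decomposition `W = k[z] ⊕ ⨁ W x_i k[z]`.

SKETCH.
* `S_add`, `S_C_mul`, `S_mul_X`: `S q y = q.sum ..` is additive in `q` (`Polynomial.sum_add_index`,
  `Polynomial.sum_C_mul_X_pow_eq`-style lemmas); best: first show
  `S (C c * X ^ a) y = c * y * z ^ a` (`Polynomial.sum_C_mul_X_pow..`/`sum_monomial_index`) and additivity,
  then the others by `Polynomial.induction_on'`.
* `S_mul`: additive in `q` and in `r`; for monomials `S_monomial` and `Polynomial.monomial_mul_monomial`.
* `S_sum`: `S q` is additive in `y` (`Polynomial.sum_add`-style: `S q y` is a finite sum over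
  `q.support`, `Finset.mul_sum`, `Finset.sum_mul`, `Finset.sum_comm`).
* `D_S`: `Polynomial.induction_on'` with `D_mul_mul_zpow` (`X` is central in `W[X]`,
  `Polynomial.X_pow_mul`).  `eps_S`: the same (`eps` is multiplicative, `eps y = 0`).
* `decomp`: by `W_induction_right`.  For scalars both sums vanish (`D_algebraMap`).  For `f * z`:
  `D i (f * z) = D i f * X` (`D_mul`, `D_z`, `eps_z`), `S (D i f * X) (x i) = S (D i f) (x i) * z`,
  `zin (eps (f * z)) = zin (eps f) * z`.  For `f * x j`: `D i (f * x j) = C f * (if j = i ..)`
  (`eps (x j) = 0`), `eps (f * x j) = 0`, so the right side is `f * x j`.  (`lt none = z`,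
  `lt (some j) = x j` are definitional.)
* `ext_D`: two elements of the kernel of `eps` with the same `D i` agree, by `decomp`.
-/

namespace Prt

open Polynomial

noncomputable section

variable {k : Type*} [CommRing k] {J : Type*} [DecidableEq J]

omit [DecidableEq J] in
theorem S_zero (y : W k J) : S 0 y = 0 := by
  unfold S
  exact Polynomial.sum_zero_index _

omit [DecidableEq J] in
theorem S_add (q r : (W k J)[X]) (y : W k J) : S (q + r) y = S q y + S r y := by
  unfold S
  refine Polynomial.sum_add_index _ _ _ (fun i => ?_) (fun i a b => ?_)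
  · rw [zero_mul, zero_mul]
  · rw [add_mul, add_mul]

omit [DecidableEq J] in
theorem S_monomial (a : ℕ) (c y : W k J) : S (monomial a c) y = c * y * z ^ a := by
  unfold S
  exact Polynomial.sum_monomial_index _ _ (by rw [zero_mul, zero_mul])

omit [DecidableEq J] in
theorem S_C_mul (c : W k J) (q : (W k J)[X]) (y : W k J) : S (C c * q) y = c * S q y := by
  induction q using Polynomial.induction_on' with
  | add p q hp hq => rw [mul_add, S_add, S_add, hp, hq, mul_add]
  | monomial n a => rw [Polynomial.C_mul_monomial, S_monomial, S_monomial, mul_assoc, mul_assoc,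
      mul_assoc]

omit [DecidableEq J] in
theorem S_mul_X (q : (W k J)[X]) (y : W k J) : S (q * X) y = S q y * z := by
  induction q using Polynomial.induction_on' with
  | add p q hp hq => rw [add_mul, S_add, S_add, hp, hq, add_mul]
  | monomial n a => rw [Polynomial.monomial_mul_X, S_monomial, S_monomial, pow_succ, ← mul_assoc]

omit [DecidableEq J] in
theorem S_add_right (q : (W k J)[X]) (y y' : W k J) : S q (y + y') = S q y + S q y' := by
  induction q using Polynomial.induction_on' with
  | add p q hp hq =>
    rw [S_add, S_add, S_add, hp, hq]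
    abel
  | monomial n a => rw [S_monomial, S_monomial, S_monomial, mul_add, add_mul]

omit [DecidableEq J] in
theorem S_zero_right (q : (W k J)[X]) : S q (0 : W k J) = 0 := by
  induction q using Polynomial.induction_on' with
  | add p q hp hq => rw [S_add, hp, hq, add_zero]
  | monomial n a => rw [S_monomial, mul_zero, zero_mul]

omit [DecidableEq J] in
/-- `W` is a left module over `W[X]`, where `X` acts by right multiplication with `z` -/
theorem S_mul (q r : (W k J)[X]) (y : W k J) : S (q * r) y = S q (S r y) := by
  induction q using Polynomial.induction_on' with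
  | add p q hp hq => rw [add_mul, S_add, S_add, hp, hq]
  | monomial n a =>
    induction r using Polynomial.induction_on' with
    | add p q hp hq => rw [mul_add, S_add, S_add, S_add_right, hp, hq]
    | monomial m b =>
      rw [Polynomial.monomial_mul_monomial, S_monomial, S_monomial, S_monomial, add_comm n m,
        pow_add]
      simp only [mul_assoc]

omit [DecidableEq J] in
theorem S_sum {ι : Type*} (s : Finset ι) (q : (W k J)[X]) (y : ι → W k J) :
    S q (∑ i ∈ s, y i) = ∑ i ∈ s, S q (y i) := by
  classical
  induction s using Finset.induction_on with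
  | empty => rw [Finset.sum_empty, Finset.sum_empty, S_zero_right]
  | insert a s ha ih => rw [Finset.sum_insert ha, Finset.sum_insert ha, S_add_right, ih]

omit [DecidableEq J] in
theorem S_eq_range (q : (W k J)[X]) (y : W k J) {N : ℕ} (hN : q.natDegree < N) :
    S q y = ∑ a ∈ Finset.range N, q.coeff a * y * z ^ a := by
  unfold S
  exact Polynomial.sum_over_range' _ (fun n => by rw [zero_mul, zero_mul]) N hN

omit [DecidableEq J] in
theorem eps_S (q : (W k J)[X]) (y : W k J) (hy : eps y = 0) : eps (S q y) = 0 := by
  induction q using Polynomial.induction_on' with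
  | add p q hp hq => rw [S_add, map_add, hp, hq, add_zero]
  | monomial n a => rw [S_monomial, map_mul, map_mul, hy, mul_zero, zero_mul]

theorem D_S (j : J) (q : (W k J)[X]) (y : W k J) (hy : eps y = 0) :
    D j (S q y) = q * D j y := by
  induction q using Polynomial.induction_on' with
  | add p q hp hq => rw [S_add, D_add, hp, hq, add_mul]
  | monomial n a =>
    rw [S_monomial, D_mul_mul_zpow j a y n hy, ← Polynomial.C_mul_X_pow_eq_monomial, mul_assoc,
      mul_assoc, Polynomial.X_pow_mul]

theorem decomp [Fintype J] (f : W k J) : f = zin (eps f) + ∑ i, S (D i f) (x i) := by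
  induction f using W_induction_right with
  | h0 c =>
    rw [AlgHom.commutes, AlgHom.commutes]
    have h : ∀ i : J, S (D i (algebraMap k (W k J) c)) (x i) = 0 := fun i => by
      rw [D_algebraMap, S_zero]
    rw [Finset.sum_congr rfl fun i _ => h i, Finset.sum_const_zero, add_zero]
  | hl o f ih =>
    cases o with
    | none =>
      have e : (lt none : W k J) = z := rfl
      rw [e, map_mul, eps_z, map_mul, zin_X]
      have h : ∀ i : J, S (D i (f * z)) (x i) = S (D i f) (x i) * z := fun i => by
        rw [D_mul, D_z, mul_zero, zero_add, eps_z, Polynomial.map_X, S_mul_X]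
      rw [Finset.sum_congr rfl fun i _ => h i, ← Finset.sum_mul, ← add_mul, ← ih]
    | some j =>
      have e : (lt (some j) : W k J) = x j := rfl
      rw [e, map_mul, eps_x, mul_zero, map_zero, zero_add]
      have h : ∀ i : J, S (D i (f * x j)) (x i) = if j = i then f * x i else 0 := fun i => by
        rw [D_mul, D_x, eps_x, Polynomial.map_zero, mul_zero, add_zero]
        split_ifs with hij
        · rw [mul_one, ← Polynomial.monomial_zero_left, S_monomial, pow_zero, mul_one]
        · rw [mul_zero, S_zero]
      rw [Finset.sum_congr rfl fun i _ => h i, Finset.sum_ite_eq, if_pos (Finset.mem_univ j)]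
  | hadd f g hf hg =>
    have h : ∀ i : J, S (D i (f + g)) (x i) = S (D i f) (x i) + S (D i g) (x i) := fun i => by
      rw [D_add, S_add]
    rw [map_add, map_add, Finset.sum_congr rfl fun i _ => h i, Finset.sum_add_distrib]
    nth_rewrite 1 [hf, hg]
    abel

theorem ext_D [Fintype J] {f g : W k J} (he : eps f = eps g) (hD : ∀ i, D i f = D i g) :
    f = g := by
  have h : ∑ i, S (D i f) (x i) = ∑ i, S (D i g) (x i) :=
    Finset.sum_congr rfl fun i _ => by rw [hD i]
  calc f = zin (eps f) + ∑ i, S (D i f) (x i) := decomp f
    _ = zin (eps g) + ∑ i, S (D i g) (x i) := by rw [he, h]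
    _ = g := (decomp g).symm

end

end Prt
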