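import Mathlib

/-!
MP_b7cb8e_al (Cohn's retract question).  Basic objects of the package `Prt`.

`W k J` is the free algebra on `z = lt none` and `x j = lt (some j)`, realised as the monoid
algebra of the free monoid.
-/

namespace Prt

open Polynomial

/-- the free algebra on `z` and the `x j`, `j : J` -/
abbrev W (k : Type*) [CommRing k] (J : Type*) := MonoidAlgebra k (FreeMonoid (Option J))

noncomputable section

variable {k : Type*} [CommRing k] {J : Type*}

/-- a letter -/
def lt (o : Option J) : W k J := MonoidAlgebra.of k _ (FreeMonoid.of o)

/-- the distinguished variable -/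
def z : W k J := lt none

/-- the other variables -/
def x (j : J) : W k J := lt (some j)

/-- the algebra homomorphism with prescribed values on the letters -/
def hom {A : Type*} [Ring A] [Algebra k A] (f : Option J → A) : W k J →ₐ[k] A :=
  MonoidAlgebra.lift k A (FreeMonoid (Option J)) (FreeMonoid.lift f)

@[simp] lemma hom_lt {A : Type*} [Ring A] [Algebra k A] (f : Option J → A) (o : Option J) :
    hom f (lt o : W k J) = f o := by
  simp [hom, lt]

@[simp] lemma hom_z {A : Type*} [Ring A] [Algebra k A] (f : Option J → A) :
    hom f (z : W k J) = f none := hom_lt f none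

@[simp] lemma hom_x {A : Type*} [Ring A] [Algebra k A] (f : Option J → A) (j : J) :
    hom f (x j : W k J) = f (some j) := hom_lt f (some j)

/-- two algebra homomorphisms that agree on the letters are equal -/
lemma hom_ext {A : Type*} [Ring A] [Algebra k A] {f g : W k J →ₐ[k] A}
    (hz : f z = g z) (hx : ∀ j, f (x j) = g (x j)) : f = g := by
  refine MonoidAlgebra.algHom_ext' ?_ (by ext)
  refine FreeMonoid.hom_eq ?_
  intro o
  cases o with
  | none => simpa [z, lt] using hz
  | some j => simpa [x, lt] using hx j

/-- the word `w` as an element of the algebra is a product of letters: induction with left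
multiplication by letters -/
lemma W_induction_left {P : W k J → Prop} (h0 : ∀ c : k, P (algebraMap k _ c))
    (hl : ∀ o f, P f → P (lt o * f))
    (hadd : ∀ f g, P f → P g → P (f + g)) (f : W k J) : P f := by
  have hsingle : ∀ (w : FreeMonoid (Option J)) (c : k), P (MonoidAlgebra.single w c) := by
    intro w
    induction w using FreeMonoid.inductionOn' with
    | one => intro c; simpa [MonoidAlgebra.coe_algebraMap] using h0 c
    | of_mul o w ih =>
      intro c
      have := hl o _ (ih c)
      simpa [lt, MonoidAlgebra.single_mul_single] using this
  induction f using MonoidAlgebra.induction_linear with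
  | zero => simpa using h0 0
  | add f g hf hg => exact hadd f g hf hg
  | single w c => exact hsingle w c

/-- the same with multiplication by letters on the right -/
lemma W_induction_right {P : W k J → Prop} (h0 : ∀ c : k, P (algebraMap k _ c))
    (hl : ∀ o f, P f → P (f * lt o))
    (hadd : ∀ f g, P f → P g → P (f + g)) (f : W k J) : P f := by
  have hsingle : ∀ (w : List (Option J)) (c : k),
      P (MonoidAlgebra.single (FreeMonoid.ofList w) c) := by
    intro w
    induction w using List.reverseRecOn with
    | nil => intro c; simpa [MonoidAlgebra.coe_algebraMap] using h0 c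
    | append_singleton w o ih =>
      intro c
      have := hl o _ (ih c)
      have h2 : FreeMonoid.ofList (w ++ [o]) = FreeMonoid.ofList w * FreeMonoid.of o := rfl
      rw [h2]
      simpa [lt, MonoidAlgebra.single_mul_single] using this
  induction f using MonoidAlgebra.induction_linear with
  | zero => simpa using h0 0
  | add f g hf hg => exact hadd f g hf hg
  | single w c => exact hsingle (FreeMonoid.toList w) c

/-- the retraction of `W k J` onto `k[z]`, seen in `k[X]`: `z ↦ X`, `x j ↦ 0` -/
def eps : W k J →ₐ[k] k[X] := hom (fun o => o.elim X (fun _ => 0))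

@[simp] lemma eps_z : eps (z : W k J) = X := by simp [eps]
@[simp] lemma eps_x (j : J) : eps (x j : W k J) = 0 := by simp [eps]

/-- `k[X] → W k J`, `X ↦ z` -/
def zin : k[X] →ₐ[k] W k J := aeval z

@[simp] lemma zin_X : zin (X : k[X]) = (z : W k J) := by simp [zin]

@[simp] lemma eps_zin (p : k[X]) : eps (zin p : W k J) = p := by
  have : (eps (k := k) (J := J)).comp zin = AlgHom.id k _ := by
    ext; simp
  exact DFunLike.congr_fun this p

/-- `q ⬝ y := ∑ₐ qₐ * y * z ^ a` for `q = ∑ₐ qₐ Xᵃ` with coefficients in the free algebra -/
def S (q : (W k J)[X]) (y : W k J) : W k J := q.sum (fun a c => c * y * z ^ a)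

variable [DecidableEq J]

/-- the algebra homomorphism that carries the derivation `D i` in the upper right corner -/
def Theta (i : J) : W k J →ₐ[k] Matrix (Fin 2) (Fin 2) (W k J)[X] :=
  hom (fun o => o.elim !![C z, 0; 0, X] (fun j => !![C (x j), if j = i then 1 else 0; 0, 0]))

/-- the derivation `D i : W → W[X]` with `D i (f * g) = C f * D i g + D i f * (eps g)(X)`,
`D i z = 0`, `D i (x j) = δ` -/
def D (i : J) (f : W k J) : (W k J)[X] := Theta i f 0 1

/-- `eps` on the coefficients: `W[X] → k[z][X]` -/
def lin (q : (W k J)[X]) : k[X][X] := q.map (eps (k := k) (J := J)).toRingHom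

/-- an endomorphism applied to the coefficients -/
def mp (π : W k J →ₐ[k] W k J) (q : (W k J)[X]) : (W k J)[X] := q.map π.toRingHom

/-- the idempotent matrix over `W[X]` attached to a retraction: `π (D j (π (x i)))` -/
def HH (π : W k J →ₐ[k] W k J) (i j : J) : (W k J)[X] := mp π (D j (π (x i)))

end

end Prt
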