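import Pool.Agent.Lib.Prt.Defs

/-!
Change of coefficients.  `jm φ : W[X] → W S J` is the ring homomorphism that applies
`φ : k[X] → S` to the coefficients (the outer variable `X` of `W[X]` is the central `t`).
-/

namespace Prt

open Polynomial

noncomputable section

variable {k : Type*} [CommRing k] {J : Type*} {R : Type*} [CommRing R]

/-- change of coefficients of the free algebra -/
def cf (φ : k →+* R) : W k J →+* W R J := MonoidAlgebra.mapRingHom _ φ

@[simp] lemma cf_lt (φ : k →+* R) (o : Option J) : cf φ (lt o : W k J) = lt o := by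
  simp [cf, lt]

@[simp] lemma cf_z (φ : k →+* R) : cf φ (z : W k J) = z := cf_lt φ none

@[simp] lemma cf_x (φ : k →+* R) (j : J) : cf φ (x j : W k J) = x j := cf_lt φ (some j)

@[simp] lemma cf_algebraMap (φ : k →+* R) (c : k) :
    cf φ (algebraMap k (W k J) c) = algebraMap R (W R J) (φ c) := by
  simp [cf, MonoidAlgebra.coe_algebraMap]

/-- `W[X] → W R J` induced by `φ : k[X] → R` -/
def jm (φ : k[X] →+* R) : (W k J)[X] →+* W R J :=
  eval₂RingHom' (cf (φ.comp C)) (algebraMap R (W R J) (φ X))
    (fun a => (Algebra.commutes (φ X) (cf (φ.comp C) a)).symm)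

@[simp] lemma jm_C (φ : k[X] →+* R) (f : W k J) : jm φ (C f) = cf (φ.comp C) f := by
  simp [jm]

@[simp] lemma jm_X (φ : k[X] →+* R) : jm φ (X : (W k J)[X]) = algebraMap R (W R J) (φ X) := by
  simp [jm]

/-- `c ∈ k[X]` as a (central) element of `W[X]` -/
def cen (c : k[X]) : (W k J)[X] := c.map (algebraMap k (W k J))

/-- `k[z][t] → R[z]` induced by `φ : k[t] → R` -/
def sg (φ : k[X] →+* R) : k[X][X] →+* R[X] :=
  eval₂RingHom (mapRingHom (φ.comp C)) (C (φ X))

/-- the coefficient of the word `w`, as a polynomial in the central variable -/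
def pc (q : (W k J)[X]) (w : FreeMonoid (Option J)) : k[X] :=
  q.sum (fun a c => monomial a (c.coeff w))

theorem pc_coeff (q : (W k J)[X]) (w : FreeMonoid (Option J)) (a : ℕ) :
    (pc q w).coeff a = (q.coeff a).coeff w := by
  unfold pc
  rw [Polynomial.sum_def, Polynomial.finsetSum_coeff]
  simp only [Polynomial.coeff_monomial]
  rw [Finset.sum_ite_eq' q.support a (fun b => (q.coeff b).coeff w)]
  split_ifs with h
  · rfl
  · rw [Polynomial.notMem_support_iff] at h
    rw [h]; rfl

theorem pc_ext {q r : (W k J)[X]} (h : ∀ w, pc q w = pc r w) : q = r := by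
  ext a w
  rw [← pc_coeff, ← pc_coeff, h]

end

end Prt
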