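import Pool.Agent.Lib.Prt.Core

/-!
Transport of the main theorem to `FreeAlgebra k (Fin n)`.
-/

namespace Prt

open Polynomial

noncomputable section

/-- `FreeAlgebra k (Fin (m + 1))` is `W k (Fin m)`, with the variable `i` as the distinguished one -/
def toW (k : Type*) [CommRing k] {m : ℕ} (i : Fin (m + 1)) :
    FreeAlgebra k (Fin (m + 1)) ≃ₐ[k] W k (Fin m) :=
  AlgEquiv.ofAlgHom (FreeAlgebra.lift k (fun j => lt (finSuccEquiv' i j)))
    (hom (fun o => FreeAlgebra.ι k ((finSuccEquiv' i).symm o)))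
    (by
      apply hom_ext
      · simp [z]
      · intro j
        simp [x])
    (by
      apply FreeAlgebra.hom_ext
      funext j
      simp)

theorem toW_ι (k : Type*) [CommRing k] {m : ℕ} (i : Fin (m + 1)) :
    toW k i (FreeAlgebra.ι k i) = z := by
  simp [toW, z]

theorem fin_main {k : Type*} [Field k] {m : ℕ}
    (R : Subalgebra k (FreeAlgebra k (Fin (m + 1))))
    (π : FreeAlgebra k (Fin (m + 1)) →ₐ[k] FreeAlgebra k (Fin (m + 1)))
    (hπR : ∀ f, π f ∈ R) (hπ : ∀ r ∈ R, π r = r)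
    (τ : FreeAlgebra k (Fin (m + 1)) ≃ₐ[k] W k (Fin m))
    (v : FreeAlgebra k (Fin (m + 1))) (hv : τ v = z)
    (p : k[X]) (hp : 0 < p.natDegree) (hpR : aeval v p ∈ R)
    (h : m + 1 ≤ 3 ∨ ∀ a ∈ R, ∀ b ∈ R, a * b - b * a ∈ TwoSidedIdeal.span {v}) :
    v ∈ R ∧ (R = ⊤ ∨ R = Algebra.adjoin k {v} ∨ ∃ y ∈ R, R = Algebra.adjoin k {v, y} ∧
      Function.Injective (FreeAlgebra.lift k ![v, y])) := by
  set ρ : W k (Fin m) →ₐ[k] W k (Fin m) := (τ.toAlgHom.comp π).comp τ.symm.toAlgHom with hρ
  have hρa : ∀ f, ρ f = τ (π (τ.symm f)) := fun f => rfl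
  have hmem : ∀ r, r ∈ R ↔ π r = r := fun r => ⟨hπ r, fun h => h ▸ hπR r⟩
  have hρR : ∀ r, r ∈ R ↔ ρ (τ r) = τ r := by
    intro r
    rw [hmem, hρa, AlgEquiv.symm_apply_apply]
    exact τ.injective.eq_iff.symm
  have hρi : ∀ f, ρ (ρ f) = ρ f := by
    intro f
    rw [hρa f, ← hρR]
    exact hπR _
  have hzp : ρ (zin p) = zin p := by
    have : (zin p : W k (Fin m)) = τ (aeval v p) := by
      rw [zin, ← hv]
      exact (Polynomial.aeval_algHom_apply τ.toAlgHom v p)
    rw [this, ← hρR]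
    exact hpR
  have hspan : ∀ f ∈ TwoSidedIdeal.span {v}, kap (τ f) = 0 := by
    intro f hf
    have h1 : TwoSidedIdeal.span {v} ≤
        TwoSidedIdeal.ker ((kap (k := k) (J := Fin m)).comp τ.toAlgHom) := by
      rw [TwoSidedIdeal.span_le]
      intro g hg
      rw [Set.mem_singleton_iff] at hg
      subst hg
      show _ ∈ TwoSidedIdeal.ker _
      rw [TwoSidedIdeal.mem_ker]
      show kap (τ g) = 0
      rw [hv]
      simp [kap]
    have h2 := h1 hf
    rw [TwoSidedIdeal.mem_ker] at h2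
    exact h2
  have hn : m ≤ 2 ∨ ∀ f g, kap (ρ f * ρ g - ρ g * ρ f) = 0 := by
    rcases h with h | h
    · left; omega
    · right
      intro f g
      have := hspan _ (h _ (hπR (τ.symm f)) _ (hπR (τ.symm g)))
      rw [map_sub τ, map_mul τ, map_mul τ] at this
      exact this
  have back : ∀ (s : Set (W k (Fin m))) (r : FreeAlgebra k (Fin (m + 1))),
      τ r ∈ Algebra.adjoin k s → r ∈ Algebra.adjoin k (τ.symm '' s) := by
    intro s r h
    have h1 : τ.symm (τ r) ∈ (Algebra.adjoin k s).map τ.symm.toAlgHom :=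
      ⟨τ r, h, rfl⟩
    rw [AlgEquiv.symm_apply_apply, AlgHom.map_adjoin] at h1
    exact h1
  have hsv : τ.symm z = v := by rw [AlgEquiv.symm_apply_eq, hv]
  obtain ⟨hz, hc⟩ := core ρ hρi hp hzp hn
  have hvR : v ∈ R := by rw [hρR, hv]; exact hz
  refine ⟨hvR, ?_⟩
  rcases hc with hc | hc | ⟨y, hy1, hy2, hy3⟩
  · left
    rw [eq_top_iff]
    intro r _
    rw [hρR]
    exact hc _
  · right; left
    apply le_antisymm
    · intro r hr
      have := back _ r (hc _ ((hρR r).1 hr))
      rwa [Set.image_singleton, hsv] at this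
    · rw [Algebra.adjoin_le_iff, Set.singleton_subset_iff]
      exact hvR
  · right; right
    have hyR : τ.symm y ∈ R := by
      rw [hρR, AlgEquiv.apply_symm_apply]; exact hy1
    refine ⟨τ.symm y, hyR, ?_, ?_⟩
    · apply le_antisymm
      · intro r hr
        have := back _ r (hy3 _ ((hρR r).1 hr))
        rwa [Set.image_pair, hsv] at this
      · rw [Algebra.adjoin_le_iff]
        intro g hg
        rcases hg with rfl | rfl
        · exact hvR
        · exact hyR
    · have h1 : (FreeAlgebra.lift k ![v, τ.symm y]) =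
          τ.symm.toAlgHom.comp (FreeAlgebra.lift k ![(z : W k (Fin m)), y]) := by
        apply FreeAlgebra.hom_ext
        funext i
        fin_cases i
        · simp [hsv]
        · simp
      rw [h1]
      exact τ.symm.injective.comp hy2

end

end Prt
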