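import Mathlib

/-!
MODULE Prt.Num (0.8 h).  A numbering of the words over a finite alphabet that is compatible
with left multiplication by letters (short-lex order; bijective numeration).

SKETCH.  Let `q = Fintype.card α` and `e : α → ℕ`, `1 ≤ e a ≤ q`, injective
(`Fintype.equivFin`, `+ 1`); if `α` is empty every word is trivial and `num = 0` works (or let
`q = card + 1`, which avoids the case distinction; any `q` with `1 ≤ e a ≤ q` works).
Define on lists `num [] = 0`, `num (a :: l) = e a * q ^ l.length + num l`.
Put `s m = ∑ i < m, q ^ i`.  By induction `s l.length ≤ num l ≤ q * s l.length` and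
`q * s m < s (m + 1)` (indeed `s (m + 1) = 1 + q * s m`).  Hence `num l < num l'` implies
`l.length ≤ l'.length`, and equal numbers have equal lengths.
* monotone: `num l < num l'`: if the lengths are equal both sides get the same summand
  `e a * q ^ length`; if `l.length < l'.length` then `q ^ l.length ≤ q ^ l'.length` (`1 ≤ q`).
* injective: induction on the list; `num (a :: l) = num (a' :: l')` gives `l.length = l'.length = m`,
  and both `num l, num l'` lie in an interval `[s m, q * s m]` of length `q * s m - s m < q ^ m`
  (because `q * s m + 1 = s (m + 1) = s m + q ^ m`), so `e a = e a'` (compare with the difference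
  `q ^ m`) and `num l = num l'`.
-/

namespace Prt

namespace NumAux

/-- the numbering -/
def nu {α : Type*} (q : ℕ) (e : α → ℕ) : List α → ℕ
  | [] => 0
  | a :: l => e a * q ^ l.length + nu q e l

/-- geometric sums -/
def s (q m : ℕ) : ℕ := ∑ i ∈ Finset.range m, q ^ i

lemma s_succ (q m : ℕ) : s q (m + 1) = s q m + q ^ m := Finset.sum_range_succ _ _

lemma s_succ' (q m : ℕ) : s q (m + 1) = q * s q m + 1 := by
  unfold s
  rw [Finset.sum_range_succ', Finset.mul_sum, pow_zero]
  congr 1
  exact Finset.sum_congr rfl fun i _ => by ring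

lemma s_mono (q : ℕ) : Monotone (s q) :=
  monotone_nat_of_le_succ fun m => by rw [s_succ]; exact Nat.le_add_right _ _

variable {α : Type*} {q : ℕ} {e : α → ℕ}

lemma le_nu (he : ∀ a, 1 ≤ e a) (l : List α) : s q l.length ≤ nu q e l := by
  induction l with
  | nil => simp [s, nu]
  | cons a l ih =>
    rw [List.length_cons, s_succ, nu]
    have := Nat.mul_le_mul_right (q ^ l.length) (he a)
    omega

lemma nu_le (he : ∀ a, e a ≤ q) (l : List α) : nu q e l ≤ q * s q l.length := by
  induction l with
  | nil => simp [s, nu]
  | cons a l ih =>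
    rw [List.length_cons, s_succ, nu]
    have := Nat.mul_le_mul_right (q ^ l.length) (he a)
    rw [mul_add]
    omega

lemma nu_lt (h1 : ∀ a, 1 ≤ e a) (h2 : ∀ a, e a ≤ q) {l l' : List α}
    (h : l.length < l'.length) : nu q e l < nu q e l' := by
  have h3 := nu_le h2 l
  have h4 := le_nu (q := q) h1 l'
  have h5 := s_succ' q l.length
  have h6 := s_mono q (Nat.succ_le_of_lt h)
  rw [Nat.succ_eq_add_one] at h6
  omega

lemma len_le (h1 : ∀ a, 1 ≤ e a) (h2 : ∀ a, e a ≤ q) {l l' : List α}
    (h : nu q e l ≤ nu q e l') : l.length ≤ l'.length := by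
  by_contra hcon
  exact absurd (nu_lt h1 h2 (not_le.1 hcon)) (not_lt.2 h)

lemma nu_cons_aux (h1 : ∀ a, 1 ≤ e a) (h2 : ∀ a, e a ≤ q) {a a' : α} {l l' : List α}
    (hl : l.length = l'.length)
    (h : e a * q ^ l.length + nu q e l = e a' * q ^ l'.length + nu q e l') : e a' ≤ e a := by
  by_contra hcon
  push Not at hcon
  have h3 := Nat.mul_le_mul_right (q ^ l.length) (Nat.succ_le_of_lt hcon)
  rw [Nat.succ_mul] at h3
  have h4 := nu_le h2 l
  have h5 := le_nu (q := q) h1 l'
  have h6 := s_succ' q l.length
  have h7 := s_succ q l.length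
  rw [← hl] at h h5
  omega

lemma nu_inj (h1 : ∀ a, 1 ≤ e a) (h2 : ∀ a, e a ≤ q) (he : Function.Injective e) :
    Function.Injective (nu q e) := by
  intro l
  induction l with
  | nil =>
    intro l' h
    have h3 := len_le h1 h2 h.ge
    exact (List.length_eq_zero_iff.1 (Nat.le_zero.1 h3)).symm
  | cons a l ih =>
    intro l' h
    have h3 := len_le h1 h2 h.le
    have h4 := len_le h1 h2 h.ge
    cases l' with
    | nil => simp at h3
    | cons a' l' =>
      rw [List.length_cons, List.length_cons] at h3 h4
      have h5 : l.length = l'.length := by omega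
      rw [nu, nu] at h
      have h6 : e a = e a' :=
        le_antisymm (nu_cons_aux h1 h2 h5.symm h.symm) (nu_cons_aux h1 h2 h5 h)
      have h7 : nu q e l = nu q e l' := by
        rw [h6, h5] at h
        exact Nat.add_left_cancel h
      rw [he h6, ih h7]

end NumAux

open NumAux in
theorem exists_num (α : Type*) [Fintype α] :
    ∃ num : FreeMonoid α → ℕ, Function.Injective num ∧
      ∀ (a : α) (w w' : FreeMonoid α), num w < num w' →
        num (FreeMonoid.of a * w) < num (FreeMonoid.of a * w') := by
  set e : α → ℕ := fun a => (Fintype.equivFin α a : ℕ) + 1 with hed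
  have h1 : ∀ a, 1 ≤ e a := fun a => Nat.le_add_left _ _
  have h2 : ∀ a, e a ≤ Fintype.card α + 1 := fun a => by
    have := (Fintype.equivFin α a).2
    simp only [hed]
    omega
  have he : Function.Injective e := by
    intro a b hab
    simp only [hed, Nat.add_right_cancel_iff] at hab
    exact (Fintype.equivFin α).injective (Fin.ext hab)
  refine ⟨fun w => nu (Fintype.card α + 1) e (FreeMonoid.toList w), fun w w' h =>
    FreeMonoid.toList.injective (nu_inj h1 h2 he h), ?_⟩
  intro a w w' h
  change nu (Fintype.card α + 1) e (FreeMonoid.toList w) <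
    nu (Fintype.card α + 1) e (FreeMonoid.toList w') at h
  simp only [FreeMonoid.toList_of_mul, nu]
  have h3 := len_le h1 h2 h.le
  have h4 : (Fintype.card α + 1) ^ (FreeMonoid.toList w).length ≤
      (Fintype.card α + 1) ^ (FreeMonoid.toList w').length :=
    Nat.pow_le_pow_right (by omega) h3
  have h5 := Nat.mul_le_mul_left (e a) h4
  omega

end Prt
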