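import Pool.Agent.Lib.Prt.Defs
import Pool.Agent.Lib.Prt.Num

/-!
MODULE Prt.FreeIdeal (2 h).  Every left ideal of a free algebra over a field (finite alphabet)
is a free left module (P. M. Cohn).  Leading word argument.

SKETCH.  Let `num` be as in `exists_num (Option J)`.  For `u : W K J` and a word `w` put
`lead u w := u.coeff w ≠ 0 ∧ ∀ w', u.coeff w' ≠ 0 → num w' ≤ num w`.  Every `u ≠ 0` has a leading
word (`Finset.exists_max_image` on `u.coeff.support`); it is unique because `num` is injective.
* multiplication by a word `v` on the left is injective on words, `(single v 1 * u).coeff (v * w) =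
  u.coeff w`, all other coefficients of `single v 1 * u` vanish; `num` is compatible, so
  `lead u w → lead (single v 1 * u) (v * w)` (also with a scalar `c ≠ 0` instead of `1`).
* Let `LM = {w | ∃ u ∈ L, lead u w}`; it is closed under left multiplication by letters.  Let
  `B = {b ∈ LM | ∀ a w, b = of a * w → w ∉ LM}`.  Every `w ∈ LM` is `v * b` with `b ∈ B`
  (induction on the length of `w`).  If `v * b = v' * b'` with `b, b' ∈ B` then `v = v'`, `b = b'`
  (induction on `v`, `v'`: if `v = 1` and `v' = of a * v''` then `b = of a * (v'' * b')` with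
  `v'' * b' ∈ LM`, impossible).
* For `b ∈ B` choose `y b ∈ L` with `lead (y b) b`.
* span: for `u ∈ L`, by strong induction on `num` of its leading word `w = v * b`: for suitable
  `c ∈ K`, `u - c • (single v 1 * y b)` is zero or has a smaller leading word.
* independence (`linearIndependent_iff`): let `∑ b, f b • y b = 0` (Finsupp) with `f ≠ 0`.  Among the
  finitely many pairs `(v, b)` with `(f b).coeff v ≠ 0` take the one that maximises
  `num (v * b)`.  The coefficient of the word `v * b` in `∑ b', f b' * y b' =
  ∑ b', ∑ v', (f b').coeff v' • (single v' 1 * y b')` only gets a contribution from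
  `(v', b') = (v, b)`: a contribution of `(v', b')` requires `num (v * b) ≤ num (v' * b')`, so equality
  of the numbers, `v * b = v' * b'`, `v = v'`, `b = b'`.  So it is
  `(f b).coeff v * (y b).coeff b ≠ 0`, a contradiction.
-/

namespace Prt

open Polynomial

noncomputable section

namespace FreeIdealAux

variable {K : Type*} [Field K] {A : Type*}

/-- the leading word -/
def ld (num : FreeMonoid A → ℕ) (u : MonoidAlgebra K (FreeMonoid A)) (w : FreeMonoid A) : Prop :=
  u.coeff w ≠ 0 ∧ ∀ w', u.coeff w' ≠ 0 → num w' ≤ num w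

lemma exists_ld (num : FreeMonoid A → ℕ) {u : MonoidAlgebra K (FreeMonoid A)} (hu : u ≠ 0) :
    ∃ w, ld num u w := by
  have h1 : u.coeff.support.Nonempty := by
    rw [Finsupp.support_nonempty_iff]
    intro h
    exact hu (MonoidAlgebra.coeff_eq_zero.1 h)
  obtain ⟨w, hw, hmax⟩ := Finset.exists_max_image u.coeff.support num h1
  refine ⟨w, Finsupp.mem_support_iff.1 hw, fun w' hw' => hmax w' (Finsupp.mem_support_iff.2 hw')⟩

lemma mono_mul {num : FreeMonoid A → ℕ}
    (hm : ∀ (a : A) (w w' : FreeMonoid A), num w < num w' →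
      num (FreeMonoid.of a * w) < num (FreeMonoid.of a * w')) (v : FreeMonoid A) :
    ∀ w w' : FreeMonoid A, num w < num w' → num (v * w) < num (v * w') := by
  induction v using FreeMonoid.inductionOn' with
  | one => intro w w' h; simpa using h
  | of_mul a v ih =>
    intro w w' h
    rw [mul_assoc, mul_assoc]
    exact hm a _ _ (ih w w' h)

lemma mono_mul_le {num : FreeMonoid A → ℕ} (hi : Function.Injective num)
    (hm : ∀ (a : A) (w w' : FreeMonoid A), num w < num w' →
      num (FreeMonoid.of a * w) < num (FreeMonoid.of a * w')) (v w w' : FreeMonoid A)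
    (h : num w ≤ num w') : num (v * w) ≤ num (v * w') := by
  rcases lt_or_eq_of_le h with h1 | h1
  · exact (mono_mul hm v w w' h1).le
  · rw [hi h1]

lemma coeff_single_mul_ne {v : FreeMonoid A} {c : K} {u : MonoidAlgebra K (FreeMonoid A)}
    {w : FreeMonoid A} (h : (MonoidAlgebra.single v c * u).coeff w ≠ 0) :
    ∃ d, w = v * d ∧ c ≠ 0 ∧ u.coeff d ≠ 0 := by
  by_cases hd : ∃ d, v * d = w
  · obtain ⟨d, rfl⟩ := hd
    rw [MonoidAlgebra.coeff_single_mul_mul] at h
    exact ⟨d, rfl, left_ne_zero_of_mul h, right_ne_zero_of_mul h⟩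
  · push Not at hd
    exact absurd (MonoidAlgebra.coeff_single_mul_of_forall_mul_ne c u hd) h

lemma ld_mul {num : FreeMonoid A → ℕ} (hi : Function.Injective num)
    (hm : ∀ (a : A) (w w' : FreeMonoid A), num w < num w' →
      num (FreeMonoid.of a * w) < num (FreeMonoid.of a * w'))
    {u : MonoidAlgebra K (FreeMonoid A)} {w : FreeMonoid A} (h : ld num u w)
    (v : FreeMonoid A) {c : K} (hc : c ≠ 0) : ld num (MonoidAlgebra.single v c * u) (v * w) := by
  refine ⟨?_, fun w' hw' => ?_⟩
  · rw [MonoidAlgebra.coeff_single_mul_mul]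
    exact mul_ne_zero hc h.1
  · obtain ⟨d, rfl, _, hd⟩ := coeff_single_mul_ne hw'
    exact mono_mul_le hi hm v d w (h.2 d hd)

lemma of_mul_inj {a a' : A} {w w' : FreeMonoid A}
    (h : FreeMonoid.of a * w = FreeMonoid.of a' * w') : a = a' ∧ w = w' := by
  have h1 := congrArg FreeMonoid.toList h
  rw [FreeMonoid.toList_of_mul, FreeMonoid.toList_of_mul] at h1
  have h2 := List.cons.inj h1
  exact ⟨h2.1, FreeMonoid.toList.injective h2.2⟩

lemma one_ne_of_mul {a : A} {w : FreeMonoid A} (h : 1 = FreeMonoid.of a * w) : False := by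
  have h1 := congrArg FreeMonoid.toList h
  rw [FreeMonoid.toList_of_mul, FreeMonoid.toList_one] at h1
  exact List.cons_ne_nil _ _ h1.symm

/-- the words of `LM` that are not proper left multiples -/
def prim (LM : Set (FreeMonoid A)) : Set (FreeMonoid A) :=
  {b | b ∈ LM ∧ ∀ a w, b = FreeMonoid.of a * w → w ∉ LM}

lemma prim_decomp (LM : Set (FreeMonoid A)) (w : FreeMonoid A) :
    w ∈ LM → ∃ v, ∃ b ∈ prim LM, w = v * b := by
  induction w using FreeMonoid.inductionOn' with
  | one =>
    intro h
    exact ⟨1, 1, ⟨h, fun a w h1 => (one_ne_of_mul h1).elim⟩, by simp⟩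
  | of_mul a w ih =>
    intro h
    by_cases hw : w ∈ LM
    · obtain ⟨v, b, hb, rfl⟩ := ih hw
      exact ⟨FreeMonoid.of a * v, b, hb, by rw [mul_assoc]⟩
    · refine ⟨1, FreeMonoid.of a * w, ⟨h, fun a' w' h1 => ?_⟩, by simp⟩
      rw [← (of_mul_inj h1).2]
      exact hw

lemma prim_unique {LM : Set (FreeMonoid A)} (hLM : ∀ v, ∀ w ∈ LM, v * w ∈ LM)
    {b b' : FreeMonoid A} (hb : b ∈ prim LM) (hb' : b' ∈ prim LM) (v : FreeMonoid A) :
    ∀ v', v * b = v' * b' → v = v' ∧ b = b' := by
  induction v using FreeMonoid.inductionOn' with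
  | one =>
    intro v'
    induction v' using FreeMonoid.inductionOn' with
    | one => intro h; exact ⟨rfl, by simpa using h⟩
    | of_mul a v' _ =>
      intro h
      rw [one_mul, mul_assoc] at h
      exact absurd (hLM v' b' hb'.1) (hb.2 a _ h)
  | of_mul a v ih =>
    intro v'
    induction v' using FreeMonoid.inductionOn' with
    | one =>
      intro h
      rw [one_mul, mul_assoc] at h
      exact absurd (hLM v b hb.1) (hb'.2 a _ h.symm)
    | of_mul a' v' _ =>
      intro h
      rw [mul_assoc, mul_assoc] at h
      obtain ⟨rfl, h2⟩ := of_mul_inj h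
      obtain ⟨rfl, h4⟩ := ih v' h2
      exact ⟨rfl, h4⟩

end FreeIdealAux

open FreeIdealAux in
theorem left_ideal_free {K : Type*} [Field K] {J : Type*} [Fintype J]
    (L : Submodule (W K J) (W K J)) :
    ∃ (B : Set (FreeMonoid (Option J))) (y : B → W K J),
      LinearIndependent (W K J) y ∧ Submodule.span (W K J) (Set.range y) = L := by
  classical
  obtain ⟨num, hi, hm⟩ := exists_num (Option J)
  set LM : Set (FreeMonoid (Option J)) := {w | ∃ u ∈ L, ld num u w} with hLMd
  have hLM : ∀ v, ∀ w ∈ LM, v * w ∈ LM := by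
    rintro v w ⟨u, hu, hw⟩
    exact ⟨MonoidAlgebra.single v 1 * u, L.smul_mem _ hu, ld_mul hi hm hw v one_ne_zero⟩
  have hex : ∀ b : prim LM, ∃ u ∈ L, ld num u (b : FreeMonoid (Option J)) := fun b => b.2.1
  choose y hyL hyld using hex
  refine ⟨prim LM, y, ?_, ?_⟩
  · -- independence
    rw [linearIndependent_iff]
    intro l hl
    by_contra hl0
    set P : Finset (Σ _ : prim LM, FreeMonoid (Option J)) :=
      l.support.sigma fun b => (l b).coeff.support with hP
    have hPne : P.Nonempty := by
      obtain ⟨b, hb⟩ := Finsupp.support_nonempty_iff.2 hl0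
      have h1 : (l b).coeff.support.Nonempty := by
        rw [Finsupp.support_nonempty_iff]
        intro h
        exact Finsupp.mem_support_iff.1 hb (MonoidAlgebra.coeff_eq_zero.1 h)
      obtain ⟨v, hv⟩ := h1
      exact ⟨⟨b, v⟩, Finset.mem_sigma.2 ⟨hb, hv⟩⟩
    obtain ⟨⟨b₀, v₀⟩, hp₀, hmax⟩ := Finset.exists_max_image P
      (fun p => num (p.2 * (p.1 : FreeMonoid (Option J)))) hPne
    have h2 : (0 : W K J) = ∑ p ∈ P, MonoidAlgebra.single p.2 ((l p.1).coeff p.2) * y p.1 := by
      rw [← hl, Finsupp.linearCombination_apply, Finsupp.sum, hP, Finset.sum_sigma]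
      refine Finset.sum_congr rfl fun b _ => ?_
      rw [smul_eq_mul]
      conv_lhs => rw [← MonoidAlgebra.sum_coeff_single (l b)]
      rw [Finsupp.sum, Finset.sum_mul]
    have h3 := congrArg (fun u : W K J => u.coeff (v₀ * (b₀ : FreeMonoid (Option J)))) h2
    simp only [MonoidAlgebra.coeff_sum, Finsupp.finsetSum_apply, MonoidAlgebra.coeff_zero,
      Finsupp.coe_zero, Pi.zero_apply] at h3
    rw [Finset.sum_eq_single (⟨b₀, v₀⟩ : Σ _ : prim LM, FreeMonoid (Option J))] at h3
    · simp only [MonoidAlgebra.coeff_single_mul_mul] at h3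
      have h4 : (l b₀).coeff v₀ ≠ 0 :=
        Finsupp.mem_support_iff.1 (Finset.mem_sigma.1 hp₀).2
      exact mul_ne_zero h4 (hyld b₀).1 h3.symm
    · rintro ⟨b, v⟩ hp hne
      by_contra hcon
      obtain ⟨d, hd, _, hd0⟩ := coeff_single_mul_ne hcon
      have h5 : num d ≤ num (b : FreeMonoid (Option J)) := (hyld b).2 d hd0
      have h6 := mono_mul_le hi hm v _ _ h5
      have h7 := hmax ⟨b, v⟩ hp
      rw [← hd] at h6
      have h8 : v * (b : FreeMonoid (Option J)) = v₀ * (b₀ : FreeMonoid (Option J)) :=
        hi (le_antisymm h7 h6)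
      obtain ⟨h9, h10⟩ := prim_unique hLM b.2 b₀.2 v v₀ h8
      apply hne
      subst h9
      have : b = b₀ := Subtype.ext h10
      rw [this]
    · intro h
      exact absurd hp₀ h
  · -- span
    apply le_antisymm
    · rw [Submodule.span_le]
      rintro _ ⟨b, rfl⟩
      exact hyL b
    · have key : ∀ N : ℕ, ∀ u ∈ L, (∀ w, u.coeff w ≠ 0 → num w < N) →
          u ∈ Submodule.span (W K J) (Set.range y) := by
        intro N
        induction N with
        | zero =>
          intro u _ hN
          have : u = 0 := by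
            by_contra hu
            obtain ⟨w, hw⟩ := exists_ld num hu
            exact absurd (hN w hw.1) (Nat.not_lt_zero _)
          rw [this]
          exact Submodule.zero_mem _
        | succ N ih =>
          intro u hu hN
          by_cases hu0 : u = 0
          · rw [hu0]
            exact Submodule.zero_mem _
          obtain ⟨w, hw⟩ := exists_ld num hu0
          obtain ⟨v, b, hb, rfl⟩ := prim_decomp LM w ⟨u, hu, hw⟩
          set yb := y ⟨b, hb⟩ with hyb
          have hybld : ld num yb b := hyld ⟨b, hb⟩
          set c : K := u.coeff (v * b) / yb.coeff b with hc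
          have hc0 : c ≠ 0 := div_ne_zero hw.1 hybld.1
          have hld2 : ld num (MonoidAlgebra.single v c * yb) (v * b) := ld_mul hi hm hybld v hc0
          have hmem2 : MonoidAlgebra.single v c * yb ∈ L := L.smul_mem _ (hyL ⟨b, hb⟩)
          have hsub := ih (u - MonoidAlgebra.single v c * yb) (L.sub_mem hu hmem2) ?_
          · have h1 : MonoidAlgebra.single v c * yb ∈ Submodule.span (W K J) (Set.range y) :=
              Submodule.smul_mem _ _ (Submodule.subset_span ⟨⟨b, hb⟩, rfl⟩)
            have h2 := Submodule.add_mem _ hsub h1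
            rwa [sub_add_cancel] at h2
          · intro w' hw'
            rw [MonoidAlgebra.coeff_sub, Finsupp.sub_apply] at hw'
            have h3 : w' ≠ v * b := by
              rintro rfl
              apply hw'
              rw [MonoidAlgebra.coeff_single_mul_mul, hc, div_mul_cancel₀ _ hybld.1, sub_self]
            have h4 : num w' ≤ num (v * b) := by
              by_cases h5 : u.coeff w' = 0
              · apply hld2.2
                intro h6
                apply hw'
                rw [h5, h6, sub_zero]
              · exact hw.2 w' h5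
            have h5 : num w' ≠ num (v * b) := fun h => h3 (hi h)
            have h6 := hN _ hw.1
            omega
      intro u hu
      refine key ((u.coeff.support.sup num) + 1) u hu fun w hw => ?_
      exact Nat.lt_succ_of_le (Finset.le_sup (f := num) (Finsupp.mem_support_iff.2 hw))

end

end Prt
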