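import Pool.Agent.Lib.Prt.JField

/-!
MODULE Prt.Gauss (1.2 h).  The Gauss lemma for `W[X] = k[X] ⊗ W` and central divisors.

SKETCH.  `Dv c q` says that `cen c` divides `q`.
* `cen` is multiplicative and `cen c ≠ 0` for `c ≠ 0` (`pc_coeff`, or `Polynomial.map_injective` with
  the injectivity of `algebraMap k W`), `cen c` is central.  `Dv` of a sum, multiples: easy.
* `gauss_prime`: `p` irreducible; `A := k[X] ⧸ Ideal.span {p}` is a field
  (`PrincipalIdealRing.isMaximal_of_irreducible`), hence a domain, and `W A J` is a domain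
  (`inferInstance` once `IsDomain A` is available).  `φ := Ideal.Quotient.mk _`.
  `jm φ (cen p) = algebraMap (φ p) = 0` (`jm_cen`), so `jm φ l * jm φ v = 0`, one factor
  vanishes, and `ker_jm` gives the divisibility.
* `gauss`: induction on `c` with `WfDvdMonoid.induction_on_irreducible` (`c ≠ 0`): a unit `c` divides
  everything (`cen c⁻¹`); for `c = p * c'`: all `l * v j` are divisible by `p`, some `v j` is not
  (`hv`), so `l = cen p * l'`; cancel `cen p` (domain, central) in `cen p * l' * v j = cen p * cen c' * r j` and apply the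
  induction hypothesis to `l'`.
* `exists_primitive`: strong induction on `(pc (v j) w).natDegree` for a fixed nonzero coefficient
  `pc (v j) w ≠ 0`: if `v` is not primitive, `v j = cen p * v' j` for all `j` with `p` irreducible, and
  `pc (v j) w = p * pc (v' j) w` (`pc_cen_mul`), so the degree drops (`1 ≤ p.natDegree`).
-/

namespace Prt

open Polynomial

noncomputable section

variable {k : Type*} [Field k] {J : Type*}

/-- `cen c` divides `q` -/
def Dv (c : k[X]) (q : (W k J)[X]) : Prop := ∃ r : (W k J)[X], q = cen c * r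

theorem cen_mul (c d : k[X]) : (cen (c * d) : (W k J)[X]) = cen c * cen d := by
  unfold cen
  exact Polynomial.map_mul _

theorem cen_ne_zero {c : k[X]} (hc : c ≠ 0) : (cen c : (W k J)[X]) ≠ 0 := by
  unfold cen
  intro h
  exact hc (Polynomial.map_injective _ (algebraMap k (W k J)).injective
    (h.trans (Polynomial.map_zero _).symm))

theorem cen_comm (c : k[X]) (q : (W k J)[X]) : cen c * q = q * cen c := by
  induction c using Polynomial.induction_on' with
  | add c d hc hd =>
    have : (cen (c + d) : (W k J)[X]) = cen c + cen d := Polynomial.map_add _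
    rw [this, add_mul, mul_add, hc, hd]
  | monomial n a =>
    have h1 : (cen (monomial n a) : (W k J)[X]) = C (algebraMap k (W k J) a) * X ^ n := by
      unfold cen
      rw [Polynomial.map_monomial, Polynomial.C_mul_X_pow_eq_monomial]
    have h2 : C (algebraMap k (W k J) a) * q = q * C (algebraMap k (W k J) a) := by
      ext m : 1
      rw [Polynomial.coeff_C_mul, Polynomial.coeff_mul_C, Algebra.commutes]
    rw [h1, mul_assoc, Polynomial.X_pow_mul, ← mul_assoc, h2, mul_assoc]

theorem gauss_prime {p : k[X]} (hp : Irreducible p) {l v : (W k J)[X]} (h : Dv p (l * v)) :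
    Dv p l ∨ Dv p v := by
  have hmax : (Ideal.span {p}).IsMaximal := PrincipalIdealRing.isMaximal_of_irreducible hp
  have : IsDomain (k[X] ⧸ Ideal.span {p}) := Ideal.Quotient.isDomain (Ideal.span {p})
  have : NoZeroDivisors (W (k[X] ⧸ Ideal.span {p}) J) := inferInstance
  obtain ⟨r, hr⟩ := h
  have h1 : jm (Ideal.Quotient.mk (Ideal.span {p})) l * jm (Ideal.Quotient.mk (Ideal.span {p})) v =
      0 := by
    rw [← map_mul, hr, map_mul, jm_cen]
    have h2 : Ideal.Quotient.mk (Ideal.span {p}) p = 0 :=
      Ideal.Quotient.eq_zero_iff_mem.2 (Ideal.mem_span_singleton_self p)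
    rw [h2, map_zero, zero_mul]
  rcases mul_eq_zero.1 h1 with h3 | h3
  · exact Or.inl (ker_jm p l h3)
  · exact Or.inr (ker_jm p v h3)

theorem gauss {ι : Type*} {v : ι → (W k J)[X]}
    (hv : ∀ p : k[X], Irreducible p → ¬ ∀ j, Dv p (v j)) {c : k[X]} (hc : c ≠ 0)
    {l : (W k J)[X]} (h : ∀ j, Dv c (l * v j)) : Dv c l := by
  revert l
  induction c using WfDvdMonoid.induction_on_irreducible with
  | zero => exact absurd rfl hc
  | unit u hu =>
    intro l _
    obtain ⟨u', rfl⟩ := hu
    refine ⟨cen (↑u'⁻¹ : k[X]) * l, ?_⟩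
    rw [← mul_assoc, ← cen_mul, Units.mul_inv]
    simp [cen]
  | mul a i ha hi ih =>
    intro l h
    have h1 : Dv i l := by
      have h2 := hv i hi
      push Not at h2
      obtain ⟨j, hj⟩ := h2
      obtain ⟨r, hr⟩ := h j
      refine (gauss_prime hi (v := v j) ⟨cen a * r, ?_⟩).resolve_right hj
      rw [hr, cen_mul, mul_assoc]
    obtain ⟨l', rfl⟩ := h1
    have h3 : Dv a l' := by
      refine ih ha fun j => ?_
      obtain ⟨r, hr⟩ := h j
      refine ⟨r, mul_left_cancel₀ (cen_ne_zero hi.ne_zero) ?_⟩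
      rw [← mul_assoc, hr, cen_mul, mul_assoc]
    obtain ⟨l'', rfl⟩ := h3
    exact ⟨l'', by rw [cen_mul, mul_assoc]⟩

theorem exists_primitive {ι : Type*} {v : ι → (W k J)[X]} (hv : ∃ j, v j ≠ 0) :
    ∃ c : k[X], c ≠ 0 ∧ ∃ v' : ι → (W k J)[X], (∀ j, v j = cen c * v' j) ∧
      ∀ p : k[X], Irreducible p → ¬ ∀ j, Dv p (v' j) := by
  obtain ⟨j, hj⟩ := hv
  have h0 : ∃ w, pc (v j) w ≠ 0 := by
    by_contra hcon
    push Not at hcon
    apply hj
    apply pc_ext
    intro w
    rw [hcon w]
    simp [pc]
  obtain ⟨w, hw⟩ := h0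
  have key : ∀ n : ℕ, ∀ v : ι → (W k J)[X], pc (v j) w ≠ 0 → (pc (v j) w).natDegree = n →
      ∃ c : k[X], c ≠ 0 ∧ ∃ v' : ι → (W k J)[X], (∀ j, v j = cen c * v' j) ∧
        ∀ p : k[X], Irreducible p → ¬ ∀ j, Dv p (v' j) := by
    intro n
    induction n using Nat.strong_induction_on with
    | _ n ih =>
      intro v hv hn
      by_cases hpr : ∀ p : k[X], Irreducible p → ¬ ∀ j, Dv p (v j)
      · exact ⟨1, one_ne_zero, v, fun j => by simp [cen], hpr⟩
      · push Not at hpr
        obtain ⟨p, hp, hdv⟩ := hpr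
        choose v' hv' using hdv
        have h1 : pc (v j) w = p * pc (v' j) w := by
          rw [hv' j, pc_cen_mul]
        have h2 : pc (v' j) w ≠ 0 := by
          intro h
          rw [h, mul_zero] at h1
          exact hv h1
        have h3 : (pc (v j) w).natDegree = p.natDegree + (pc (v' j) w).natDegree := by
          rw [h1, Polynomial.natDegree_mul hp.ne_zero h2]
        have h4 := hp.natDegree_pos
        obtain ⟨c, hc, v'', hv'', hpr'⟩ := ih _ (by omega) v' h2 rfl
        refine ⟨p * c, mul_ne_zero hp.ne_zero hc, v'', fun j => ?_, hpr'⟩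
        rw [hv' j, hv'' j, cen_mul, mul_assoc]
  exact key _ v hw rfl

end

end Prt
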