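import Pool.Agent.Lib.Prt.DefsK

/-!
MODULE Prt.JBasic (1 h).  Rules for the change of coefficients `jm φ : W[X] → W R J`.

SKETCH.
* `cf_coeff`: `(cf φ f).coeff w = φ (f.coeff w)`: `MonoidAlgebra.mapRingHom` is the map on
  coefficients (`MonoidAlgebra.coeff_mapRingHom` or by `MonoidAlgebra.induction_linear`).
* `jm_coeff`: `(jm φ q).coeff w = φ (pc q w)`: additive in `q` (`Polynomial.induction_on'`); for a
  monomial `monomial a c`: `jm φ (monomial a c) = cf (φ.comp C) c * algebraMap (φ X ^ a)`
  (`Polynomial.eval₂_monomial`), whose `w` coefficient is `φ (C (c.coeff w)) * φ X ^ a`, and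
  `pc (monomial a c) w = monomial a (c.coeff w)` (`pc_coeff`).
* `jm_injective`: `jm_coeff` and `pc_ext`.
* `jm_cen`: `Polynomial.induction_on` for `c`, or `jm_coeff`.
* `eps_cf`: `eps (cf φ f) = (eps f).map φ`, `W_induction_left`.  `eps_jm`: additive in `q`, reduce to `C f` and `X`.
-/

namespace Prt

open Polynomial

noncomputable section

variable {k : Type*} [CommRing k] {J : Type*} {R : Type*} [CommRing R]

theorem cf_coeff (φ : k →+* R) (f : W k J) (w : FreeMonoid (Option J)) :
    (cf φ f).coeff w = φ (f.coeff w) :=
  MonoidAlgebra.coeff_mapRingHom φ f w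

private theorem jbasic_monomial (φ : k[X] →+* R) (a : ℕ) (c : W k J) :
    jm φ (monomial a c) = cf (φ.comp C) c * algebraMap R (W R J) (φ X ^ a) := by
  rw [← C_mul_X_pow_eq_monomial, map_mul, map_pow, jm_C, jm_X, map_pow]

private theorem jbasic_coeff_mul (f : W R J) (r : R) (w : FreeMonoid (Option J)) :
    (f * algebraMap R (W R J) r).coeff w = f.coeff w * r := by
  rw [MonoidAlgebra.coe_algebraMap]
  exact MonoidAlgebra.coeff_mul_single_one f r w

theorem jm_coeff (φ : k[X] →+* R) (q : (W k J)[X]) (w : FreeMonoid (Option J)) :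
    (jm φ q).coeff w = φ (pc q w) := by
  induction q using Polynomial.induction_on' with
  | add p q hp hq =>
    have h : pc (p + q) w = pc p w + pc q w := by
      ext a
      rw [pc_coeff, coeff_add, coeff_add, pc_coeff, pc_coeff]
      rfl
    rw [map_add, h, map_add, ← hp, ← hq]
    rfl
  | monomial a c =>
    have h : pc (monomial a c) w = monomial a (c.coeff w) := by
      ext b
      rw [pc_coeff, coeff_monomial, coeff_monomial]
      split_ifs
      · rfl
      · rfl
    rw [jbasic_monomial, jbasic_coeff_mul, cf_coeff, h, ← C_mul_X_pow_eq_monomial, map_mul,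
      map_pow]
    rfl

theorem jm_injective (φ : k[X] →+* R) (hφ : Function.Injective φ) :
    Function.Injective (jm φ : (W k J)[X] →+* W R J) := by
  intro p q h
  refine pc_ext fun w => hφ ?_
  rw [← jm_coeff, ← jm_coeff, h]

theorem jm_cen (φ : k[X] →+* R) (c : k[X]) :
    jm φ (cen c : (W k J)[X]) = algebraMap R (W R J) (φ c) := by
  unfold cen
  induction c using Polynomial.induction_on' with
  | add p q hp hq => rw [Polynomial.map_add, map_add, hp, hq, map_add, map_add]
  | monomial a c =>
    rw [map_monomial, jbasic_monomial, cf_algebraMap, ← map_mul, ← C_mul_X_pow_eq_monomial,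
      map_mul φ, map_pow]
    rfl

theorem eps_cf (φ : k →+* R) (f : W k J) : eps (cf φ f) = (eps f).map φ := by
  induction f using W_induction_left with
  | h0 c =>
    rw [cf_algebraMap, AlgHom.commutes, AlgHom.commutes, Polynomial.algebraMap_eq,
      Polynomial.algebraMap_eq, map_C]
  | hl o f hf =>
    have h1 : (eps (lt o : W R J) : R[X]) = (eps (lt o : W k J) : k[X]).map φ := by
      unfold eps
      rw [hom_lt, hom_lt]
      cases o with
      | none => simp
      | some j => simp
    rw [map_mul, map_mul, map_mul, cf_lt, Polynomial.map_mul, hf, h1]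
  | hadd f g hf hg => rw [map_add, map_add, map_add, Polynomial.map_add, hf, hg]

theorem eps_jm (φ : k[X] →+* R) (q : (W k J)[X]) : eps (jm φ q) = sg φ (lin q) := by
  induction q using Polynomial.induction_on' with
  | add p q hp hq =>
    have h : lin (p + q) = lin p + lin q := by
      unfold lin
      exact Polynomial.map_add _
    rw [map_add, map_add, hp, hq, h, map_add]
  | monomial a c =>
    have h : lin (monomial a c) = monomial a (eps c) := by
      unfold lin
      rw [map_monomial]
      rfl
    rw [jbasic_monomial, h, map_mul, eps_cf, AlgHom.commutes, Polynomial.algebraMap_eq, map_pow]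
    unfold sg
    rw [coe_eval₂RingHom, eval₂_monomial, coe_mapRingHom]

end

end Prt
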