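import Pool.Agent.Lib.Prt.JBasic

/-!
MODULE Prt.JField (1 h).  Clearing denominators, and the kernel of reduction modulo a prime.

SKETCH.  `clear`: `u.coeff` has finite support; by `IsLocalization.exist_integer_multiples`
(for `nonZeroDivisors k[X]`, finite set of coefficients) there is `c ≠ 0` with
`algebraMap c * u.coeff w = algebraMap (p w)` for all `w`; let
`q := ∑ w ∈ support, ∑ a, monomial a (single w ((p w).coeff a))` (or
`∑ w, cen (p w) * C (MonoidAlgebra.single w 1)`), and check with `jm_coeff` / `jm_cen`, `jm_C`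
that `jm q = algebraMap c * u`.
`ker_jm`: by `jm_coeff`, `p ∣ pc q w` for every `w` (`Ideal.Quotient.eq_zero_iff_mem`,
`Ideal.mem_span_singleton`).  Write `pc q w = p * r w` (choice, `r w = 0` when `pc q w = 0`),
only finitely many `w` matter (those in the union of the supports of the coefficients of `q`);
`r := ∑ w, cen (r w) * C (single w 1)`; then `pc (cen p * r) w = pc q w`, `pc_ext`.
A convenient lemma: `pc (cen p * q) w = p * pc q w` and `pc (cen c * C (single w 1)) w' = if w = w' then c else 0`.
-/

namespace Prt

open Polynomial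

noncomputable section

variable {k : Type*} [Field k] {J : Type*}

private theorem JField_algebraMap_mul_coeff {R : Type*} [CommRing R] (c : R) (f : W R J)
    (w : FreeMonoid (Option J)) :
    (algebraMap R (W R J) c * f).coeff w = c * f.coeff w := by
  rw [← Algebra.smul_def]
  rfl

theorem pc_cen_mul (p : k[X]) (q : (W k J)[X]) (w : FreeMonoid (Option J)) :
    pc (cen p * q) w = p * pc q w := by
  ext n
  rw [pc_coeff, Polynomial.coeff_mul, Polynomial.coeff_mul]
  have h : ∀ (s : Finset (ℕ × ℕ)) (F : ℕ × ℕ → W k J),
      (∑ i ∈ s, F i).coeff w = ∑ i ∈ s, (F i).coeff w := by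
    intro s F
    classical
    induction s using Finset.induction_on with
    | empty => rfl
    | insert a s ha ih =>
      rw [Finset.sum_insert ha, Finset.sum_insert ha, ← ih]
      rfl
  rw [h]
  refine Finset.sum_congr rfl fun i _ => ?_
  rw [pc_coeff, cen, Polynomial.coeff_map, JField_algebraMap_mul_coeff]

private theorem JField_pc_add (a b : (W k J)[X]) (w : FreeMonoid (Option J)) :
    pc (a + b) w = pc a w + pc b w := by
  ext n
  rw [pc_coeff, Polynomial.coeff_add, Polynomial.coeff_add, pc_coeff, pc_coeff]
  rfl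

private theorem JField_pc_zero (w : FreeMonoid (Option J)) : pc (0 : (W k J)[X]) w = 0 := by
  ext n
  rw [pc_coeff]
  simp

private theorem JField_pc_C_single [DecidableEq (FreeMonoid (Option J))]
    (w w' : FreeMonoid (Option J)) :
    pc (C (MonoidAlgebra.single w (1 : k)) : (W k J)[X]) w' = if w = w' then 1 else 0 := by
  ext n
  rw [pc_coeff, Polynomial.coeff_C]
  by_cases hn : n = 0
  · subst hn
    rw [if_pos rfl, MonoidAlgebra.coeff_single, Finsupp.single_apply]
    split_ifs <;> simp
  · rw [if_neg hn]
    split_ifs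
    · rw [Polynomial.coeff_one, if_neg hn]; rfl
    · simp

private theorem JField_pc_sum [DecidableEq (FreeMonoid (Option J))]
    (s : Finset (FreeMonoid (Option J))) (r : FreeMonoid (Option J) → k[X])
    (w' : FreeMonoid (Option J)) :
    pc (∑ w ∈ s, cen (r w) * C (MonoidAlgebra.single w (1 : k)) : (W k J)[X]) w' =
      if w' ∈ s then r w' else 0 := by
  induction s using Finset.induction_on with
  | empty => simp [JField_pc_zero]
  | insert a s ha ih =>
    rw [Finset.sum_insert ha, JField_pc_add, ih, pc_cen_mul, JField_pc_C_single]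
    by_cases h1 : a = w'
    · subst h1
      simp [ha]
    · have h2 : w' ≠ a := fun h => h1 h.symm
      simp [h1, h2]

private theorem JField_ext {R : Type*} [CommRing R] {a b : W R J}
    (h : ∀ w, a.coeff w = b.coeff w) : a = b := by
  ext w
  exact h w

theorem clear (u : W (FractionRing k[X]) J) :
    ∃ c : k[X], c ≠ 0 ∧ ∃ q : (W k J)[X],
      jm (algebraMap k[X] (FractionRing k[X])) q =
        algebraMap (FractionRing k[X]) _ (algebraMap k[X] (FractionRing k[X]) c) * u := by
  classical
  obtain ⟨b, hb⟩ := IsLocalization.exist_integer_multiples (nonZeroDivisors k[X])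
    u.coeff.support (fun w => u.coeff w)
  have hb' : ∀ w : FreeMonoid (Option J), ∃ p : k[X], w ∈ u.coeff.support →
      algebraMap k[X] (FractionRing k[X]) p =
        algebraMap k[X] (FractionRing k[X]) (b : k[X]) * u.coeff w := by
    intro w
    by_cases hw : w ∈ u.coeff.support
    · obtain ⟨p, hp⟩ := hb w hw
      refine ⟨p, fun _ => ?_⟩
      rw [hp, Algebra.smul_def]
    · exact ⟨0, fun h => absurd h hw⟩
  choose p hp using hb'
  refine ⟨b, nonZeroDivisors.coe_ne_zero b,
    ∑ w ∈ u.coeff.support, cen (p w) * C (MonoidAlgebra.single w (1 : k)), ?_⟩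
  apply JField_ext
  intro w
  rw [jm_coeff, JField_pc_sum, JField_algebraMap_mul_coeff]
  by_cases hw : w ∈ u.coeff.support
  · rw [if_pos hw, hp w hw]
  · rw [if_neg hw, map_zero, Finsupp.notMem_support_iff.1 hw, mul_zero]

theorem ker_jm (p : k[X]) (q : (W k J)[X])
    (h : jm (Ideal.Quotient.mk (Ideal.span {p})) q = 0) :
    ∃ r : (W k J)[X], q = cen p * r := by
  classical
  have h1 : ∀ w, ∃ r : k[X], pc q w = p * r := by
    intro w
    have h2 : (jm (Ideal.Quotient.mk (Ideal.span {p})) q).coeff w = 0 := by rw [h]; rfl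
    rw [jm_coeff, Ideal.Quotient.eq_zero_iff_mem, Ideal.mem_span_singleton] at h2
    exact h2
  choose r hr using h1
  refine ⟨∑ w ∈ q.support.biUnion (fun a => (q.coeff a).coeff.support),
    cen (r w) * C (MonoidAlgebra.single w (1 : k)), pc_ext fun w => ?_⟩
  rw [pc_cen_mul, JField_pc_sum]
  by_cases hw : w ∈ q.support.biUnion (fun a => (q.coeff a).coeff.support)
  · rw [if_pos hw, hr w]
  · rw [if_neg hw, mul_zero]
    ext n
    rw [pc_coeff]
    by_contra hne
    apply hw
    rw [Finset.mem_biUnion]
    refine ⟨n, ?_, Finsupp.mem_support_iff.2 (by simpa using hne)⟩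
    rw [Polynomial.mem_support_iff]
    intro h0
    apply hne
    rw [h0]
    simp

end

end Prt
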