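import Pool.Agent.Lib.Prt.SplitT
import Pool.Agent.Lib.Prt.PiStar
import Pool.Agent.Lib.Prt.Inj

/-!
MODULE Prt.OneSided (0.8 h).  The fixed elements in `ker eps` are the multiples `S q y` of one element.

SKETCH.  `split_poly` for `HH π` (`HH_idem`, `lin_HH`) gives `HH π i j = α i * β j`.  Replace `α, β` by
`a i = mp π (α i)`, `b j = mp π (β j)`: `mp π (HH π i j) = HH π i j` (`mp_mp`), so
`HH π i j = a i * b j` (`mp_mul`) and `mp π (a i) = a i`, `mp π (b j) = b j`.
Put `y = ∑ j, S (b j) (π (x j))`: `eps y = 0` (`eps_S`, `eps (π (x j)) = 0`), `π y = y` (`pi_S`, `map_sum`, `hπ`).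
For `u` with `π u = u`, `eps u = 0`: `fix_expand`: with `c i = mp π (D i u)`, `q := ∑ i, c i * a i`:
`c j = ∑ i, c i * (a i * b j) = q * b j`, `u = ∑ j, S (q * b j) (π (x j)) = ∑ j, S q (S (b j) (π (x j))) = S q y`
(`S_mul`, `S_sum`), and `mp π q = q` (`mp_sum`, `mp_mul`, `mp_mp`).
If `y = 0` then every such `u` is `S q 0 = 0`.
-/

namespace Prt

open Polynomial

noncomputable section

theorem one_sided {k : Type*} [Field k] {J : Type*} [Fintype J] [DecidableEq J]
    (π : W k J →ₐ[k] W k J) (hπ : ∀ f, π (π f) = π f) (hz : π z = z)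
    (he : ∀ f, eps (π f) = eps f)
    (hm : ∀ i i' j j', lin (D j (π (x i))) * lin (D j' (π (x i'))) =
      lin (D j' (π (x i))) * lin (D j (π (x i')))) :
    (∀ u, π u = u → eps u = 0 → u = 0) ∨
      ∃ y, eps y = 0 ∧ π y = y ∧ y ≠ 0 ∧
        ∀ u, π u = u → eps u = 0 → ∃ q, mp π q = q ∧ u = S q y := by
  obtain ⟨α, β, hαβ, -⟩ := split_poly (HH π) (HH_idem π hπ hz he) (by
    intro i i' j j'
    rw [lin_HH π he, lin_HH π he, lin_HH π he, lin_HH π he]
    exact hm i i' j j')
  let a : J → (W k J)[X] := fun i => mp π (α i)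
  let b : J → (W k J)[X] := fun j => mp π (β j)
  have hb : ∀ j, mp π (b j) = b j := fun j => mp_mp π hπ _
  have ha : ∀ j, mp π (a j) = a j := fun j => mp_mp π hπ _
  have hab : ∀ i j, HH π i j = a i * b j := by
    intro i j
    have h1 : mp π (HH π i j) = HH π i j := mp_mp π hπ _
    rw [← h1, hαβ, mp_mul]
  have hex : ∀ i, eps (π (x i) : W k J) = 0 := by
    intro i
    rw [he, eps_x]
  let y : W k J := ∑ j, S (b j) (π (x j))
  have hy : y = ∑ j, S (b j) (π (x j)) := rfl
  have hey : eps y = 0 := by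
    rw [hy, map_sum]
    exact Finset.sum_eq_zero fun j _ => eps_S _ _ (hex j)
  have hpy : π y = y := by
    rw [hy, map_sum]
    refine Finset.sum_congr rfl fun j _ => ?_
    rw [pi_S π hz, hb, hπ]
  have hmain : ∀ u, π u = u → eps u = 0 → ∃ q, mp π q = q ∧ u = S q y := by
    intro u hu hu0
    obtain ⟨h1, h2⟩ := fix_expand π hπ hz he u hu hu0
    refine ⟨∑ i, mp π (D i u) * a i, ?_, ?_⟩
    · rw [mp_sum]
      refine Finset.sum_congr rfl fun i _ => ?_
      rw [mp_mul, mp_mp π hπ, ha]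
    · have h3 : ∀ j, mp π (D j u) = (∑ i, mp π (D i u) * a i) * b j := by
        intro j
        rw [h2 j, Finset.sum_mul]
        refine Finset.sum_congr rfl fun i _ => ?_
        rw [hab, mul_assoc]
      refine h1.trans ?_
      rw [hy, S_sum]
      refine Finset.sum_congr rfl fun j _ => ?_
      rw [h3 j, S_mul]
  by_cases hy0 : y = 0
  · left
    intro u hu hu0
    obtain ⟨q, -, hq⟩ := hmain u hu hu0
    rw [hq, hy0]
    have h5 := S_sum (∅ : Finset J) q (fun _ => (0 : W k J))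
    simpa using h5
  · right
    exact ⟨y, hey, hpy, hy0, hmain⟩

end

end Prt
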