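import Pool.Agent.Lib.Prt.FreeIdeal

/-!
MODULE Prt.SplitK (1.2 h).  An idempotent matrix over the free algebra (over a field) whose image
under `eps` has vanishing 2 × 2 minors is a product column times row.

SKETCH.  `ρ u := ∑ j, u j * x j : W`, for `u : J → W`; it is additive, `ρ (f • u) = f * ρ u`, and
injective (the coefficient of the word `w * of (some j)` in `ρ u` is `(u j).coeff w`; or use
uniqueness of right division by letters).  Let `L` be the span of the `ρ (H i)` (rows of `H`), and
`(B, y)` from `left_ideal_free L`.  Write `ρ (H i) = ∑ b, α i b • y b` (Finsupp; `α i b ∈ W`), and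
for `b ∈ B`, `y b ∈ L` gives `y b = ∑ i, c b i * ρ (H i) = ρ (Y b)`, `Y b j = ∑ i, c b i * H i j`.
By `hH`, `∑ l, Y b l * H l j = Y b j`, so `y b = ρ (Y b) = ∑ l, Y b l * ρ (H l) = ∑ l, ∑ b', (Y b l * α l b') • y b'`
and independence gives `∑ l, Y b l * α l b' = if b = b' then 1 else 0`.
* Two different elements `b ≠ b'` of `B` are impossible: apply `eps` (commutative target); by `hm` and
  the form of `Y b`, `Y b'`, `eps (Y b l) * eps (Y b' m) = eps (Y b m) * eps (Y b' l)` for all `l, m`; so
  `1 = (∑ l, Y b l * α l b) (∑ m, Y b' m * α m b')` becomes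
  `(∑ m, Y b m * α m b') (∑ l, Y b' l * α l b) = 0` under `eps`.
* `B` empty: `L = 0`, so `ρ (H i) = 0`, `H i j = 0`; take `α = β = 0`.
* `B = {b}`: `α i = α i b`, `β = Y b`: `ρ (H i) = α i b * ρ (Y b)` gives `H i j = α i * β j`, and
  `∑ l, β l * α l = 1`.
-/

namespace Prt

open Polynomial

noncomputable section

namespace SplitKAux

variable {K : Type*} [Field K] {J : Type*} [Fintype J] [DecidableEq J]

/-- a row as an element of the left ideal of elements without constant term -/
def rho (u : J → W K J) : W K J := ∑ j, u j * x j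

omit [DecidableEq J] in
lemma rho_smul (f : W K J) (u : J → W K J) : rho (fun j => f * u j) = f * rho u := by
  unfold rho
  rw [Finset.mul_sum]
  exact Finset.sum_congr rfl fun j _ => mul_assoc _ _ _

omit [DecidableEq J] in
lemma rho_sum {ι : Type*} (s : Finset ι) (u : ι → J → W K J) :
    rho (fun j => ∑ i ∈ s, u i j) = ∑ i ∈ s, rho (u i) := by
  unfold rho
  rw [Finset.sum_comm]
  exact Finset.sum_congr rfl fun j _ => Finset.sum_mul _ _ _

omit [Fintype J] [DecidableEq J] in
lemma x_eq (j : J) : (x j : W K J) = MonoidAlgebra.single (FreeMonoid.of (some j)) 1 := rfl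

omit [Fintype J] [DecidableEq J] in
lemma mul_of_inj {a b : Option J} {w v : FreeMonoid (Option J)}
    (h : w * FreeMonoid.of a = v * FreeMonoid.of b) : a = b := by
  have h1 := congrArg FreeMonoid.toList h
  rw [FreeMonoid.toList_mul, FreeMonoid.toList_mul, FreeMonoid.toList_of,
    FreeMonoid.toList_of] at h1
  have h2 := (List.append_inj' h1 rfl).2
  exact List.singleton_injective h2

omit [DecidableEq J] in
lemma rho_coeff (u : J → W K J) (w : FreeMonoid (Option J)) (j : J) :
    (rho u).coeff (w * FreeMonoid.of (some j)) = (u j).coeff w := by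
  classical
  unfold rho
  rw [MonoidAlgebra.coeff_sum, Finsupp.finsetSum_apply, Finset.sum_eq_single j]
  · rw [x_eq, MonoidAlgebra.coeff_mul_single_mul, mul_one]
  · intro i _ hi
    rw [x_eq]
    apply MonoidAlgebra.coeff_mul_single_of_forall_mul_ne
    intro d hd
    exact hi (Option.some_injective _ (mul_of_inj hd))
  · intro h
    exact absurd (Finset.mem_univ j) h

omit [DecidableEq J] in
lemma rho_inj {u v : J → W K J} (h : rho u = rho v) : u = v := by
  funext j
  apply MonoidAlgebra.ext
  ext w
  rw [← rho_coeff u w j, h, rho_coeff]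

end SplitKAux

open SplitKAux in
theorem split_field {K : Type*} [Field K] {J : Type*} [Fintype J] [DecidableEq J]
    (H : J → J → W K J) (hH : ∀ i j, ∑ l, H i l * H l j = H i j)
    (hm : ∀ i i' j j', eps (H i j) * eps (H i' j') = eps (H i j') * eps (H i' j)) :
    ∃ α β : J → W K J, (∀ i j, H i j = α i * β j) ∧
      ((∑ i, β i * α i = 1) ∨ ∀ i j, H i j = 0) := by
  obtain ⟨B, y, hli, hsp⟩ := left_ideal_free
    (Submodule.span (W K J) (Set.range fun i => rho (H i)))
  have hα : ∀ i, ∃ a : B →₀ W K J, Finsupp.linearCombination (W K J) y a = rho (H i) := by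
    intro i
    have h1 : rho (H i) ∈ Submodule.span (W K J) (Set.range y) := by
      rw [hsp]
      exact Submodule.subset_span ⟨i, rfl⟩
    exact (Finsupp.mem_span_range_iff_exists_finsupp.1 h1)
  choose α hα using hα
  have hc : ∀ b : B, ∃ c : J → W K J, ∑ i, c i • rho (H i) = y b := by
    intro b
    have h1 : y b ∈ Submodule.span (W K J) (Set.range fun i => rho (H i)) := by
      rw [← hsp]
      exact Submodule.subset_span ⟨b, rfl⟩
    exact (Submodule.mem_span_range_iff_exists_fun _).1 h1
  choose c hc using hc
  set Y : B → J → W K J := fun b j => ∑ i, c b i * H i j with hY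
  have hY1 : ∀ b, rho (Y b) = y b := by
    intro b
    rw [hY, rho_sum]
    rw [← hc b]
    refine Finset.sum_congr rfl fun i _ => ?_
    rw [rho_smul, smul_eq_mul]
  have hY2 : ∀ b j, ∑ l, Y b l * H l j = Y b j := by
    intro b j
    simp only [hY]
    calc ∑ l, (∑ i, c b i * H i l) * H l j = ∑ l, ∑ i, c b i * (H i l * H l j) := by
          refine Finset.sum_congr rfl fun l _ => ?_
          rw [Finset.sum_mul]
          exact Finset.sum_congr rfl fun i _ => mul_assoc _ _ _
      _ = ∑ i, ∑ l, c b i * (H i l * H l j) := Finset.sum_comm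
      _ = ∑ i, c b i * H i j := by
          refine Finset.sum_congr rfl fun i _ => ?_
          rw [← Finset.mul_sum, hH]
  have hY3 : ∀ b, y b = ∑ l, Y b l * rho (H l) := by
    intro b
    rw [← hY1 b]
    have h1 : Y b = fun j => ∑ l, Y b l * H l j := by
      funext j
      exact (hY2 b j).symm
    conv_lhs => rw [h1]
    rw [rho_sum]
    exact Finset.sum_congr rfl fun l _ => rho_smul _ _
  have hdelta : ∀ b, Finsupp.single b (1 : W K J) = ∑ l, Y b l • α l := by
    intro b
    apply hli
    rw [Finsupp.linearCombination_single, one_smul, map_sum, hY3 b]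
    refine Finset.sum_congr rfl fun l _ => ?_
    rw [map_smul, hα, smul_eq_mul]
  have hone : ∀ b, ∑ l, Y b l * α l b = 1 := by
    intro b
    have h1 := DFunLike.congr_fun (hdelta b) b
    rw [Finsupp.single_eq_same, Finsupp.finsetSum_apply] at h1
    rw [h1]
    exact Finset.sum_congr rfl fun l _ => rfl
  have hzero : ∀ b b', b ≠ b' → ∑ l, Y b l * α l b' = 0 := by
    intro b b' hbb
    have h1 := DFunLike.congr_fun (hdelta b) b'
    rw [Finsupp.single_eq_of_ne hbb.symm, Finsupp.finsetSum_apply] at h1
    rw [h1]
    exact Finset.sum_congr rfl fun l _ => rfl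
  have hmin : ∀ b b' l m, eps (Y b l) * eps (Y b' m) = eps (Y b m) * eps (Y b' l) := by
    intro b b' l m
    simp only [hY, map_sum, map_mul, Finset.sum_mul_sum]
    refine Finset.sum_congr rfl fun i _ => Finset.sum_congr rfl fun i' _ => ?_
    calc eps (c b i) * eps (H i l) * (eps (c b' i') * eps (H i' m)) =
          eps (c b i) * eps (c b' i') * (eps (H i l) * eps (H i' m)) := by ring
      _ = eps (c b i) * eps (c b' i') * (eps (H i m) * eps (H i' l)) := by rw [hm]
      _ = eps (c b i) * eps (H i m) * (eps (c b' i') * eps (H i' l)) := by ring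
  have huniq : ∀ b b' : B, b = b' := by
    intro b b'
    by_contra hne
    have h1 := congrArg eps (hone b)
    have h2 := congrArg eps (hone b')
    have h3 := congrArg eps (hzero b b' hne)
    have h4 := congrArg eps (hzero b' b (Ne.symm hne))
    rw [map_sum, map_one] at h1 h2
    rw [map_sum, map_zero] at h3 h4
    simp only [map_mul] at h1 h2 h3 h4
    have h5 : (1 : K[X]) = 0 := by
      calc (1 : K[X]) = (∑ l, eps (Y b l) * eps (α l b)) * (∑ m, eps (Y b' m) * eps (α m b')) := by
            rw [h1, h2, one_mul]
        _ = ∑ l, ∑ m, (eps (Y b l) * eps (Y b' m)) * (eps (α l b) * eps (α m b')) := by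
            rw [Finset.sum_mul_sum]
            refine Finset.sum_congr rfl fun i _ => Finset.sum_congr rfl fun i' _ => ?_
            ring
        _ = ∑ l, ∑ m, (eps (Y b' l) * eps (α l b)) * (eps (Y b m) * eps (α m b')) := by
            refine Finset.sum_congr rfl fun i _ => Finset.sum_congr rfl fun i' _ => ?_
            rw [hmin b b' i i']
            ring
        _ = (∑ l, eps (Y b' l) * eps (α l b)) * (∑ m, eps (Y b m) * eps (α m b')) := by
            rw [Finset.sum_mul_sum]
        _ = 0 := by rw [h3, mul_zero]
    exact one_ne_zero h5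
  rcases isEmpty_or_nonempty B with hB | ⟨⟨b₀⟩⟩
  · refine ⟨0, 0, fun i j => ?_, Or.inr fun i j => ?_⟩
    all_goals
      have h1 : rho (H i) = rho (fun _ => (0 : W K J)) := by
        rw [← hα i, Finsupp.linearCombination_apply, Finsupp.sum]
        have : (α i).support = ∅ := Finset.eq_empty_of_isEmpty _
        rw [this, Finset.sum_empty]
        simp [rho]
      have h2 := congrFun (rho_inj h1) j
      simpa using h2
  · refine ⟨fun i => α i b₀, Y b₀, fun i j => ?_, Or.inl (hone b₀)⟩
    have h1 : α i = Finsupp.single b₀ (α i b₀) := by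
      ext1 b
      rw [huniq b b₀, Finsupp.single_eq_same]
    have h2 : rho (H i) = rho (fun j => α i b₀ * Y b₀ j) := by
      rw [rho_smul, hY1, ← hα i]
      conv_lhs => rw [h1]
      rw [Finsupp.linearCombination_single, smul_eq_mul]
    exact congrFun (rho_inj h2) j

end

end Prt
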