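import Pool.Agent.Lib.Prt.Gauss
import Pool.Agent.Lib.Prt.SplitK

/-!
MODULE Prt.SplitT (1.2 h).  The splitting of rank one idempotents over `W[X] = k[X] ⊗ W`.

SKETCH.  `φ := algebraMap k[X] (FractionRing k[X])`, `j := jm φ`, injective (`jm_injective`).  Apply
`split_field` to `fun i l => jm φ (H i l)`: the hypothesis on `eps` follows from `eps_jm` and `hm`.
If all `jm φ (H i l) = 0` then `H = 0`, take `α = β = 0`.  Otherwise get `α', β'` over the field with
`jm φ (H i l) = α' i * β' l`, `∑ β' i * α' i = 1`; so some `β' j ≠ 0`.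
* `clear` each `β' j` and multiply with the product of the other denominators: one `c ≠ 0` and
  `b j ∈ W[X]` with `jm φ (b j) = φ c • β' j` (as `algebraMap _ _ (φ c) * β' j`); `b ≠ 0`.
* `exists_primitive`: `b j = cen e * β j`, `β` primitive, `e ≠ 0`.  So
  `φ e * jm φ (β j) = φ c * β' j` (`jm_cen`).
* Let `a'' i := (φ e / φ c) • α' i`; hmm: `jm φ (H i l) = α' i * β' l = a'' i * jm φ (β l)`.
  `clear` each `a'' i` with a common denominator `d ≠ 0`: `jm φ (a i) = φ d * a'' i`.
  Then `jm φ (cen d * H i l) = jm φ (a i * β l)`, so `cen d * H i l = a i * β l` and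
  `gauss` gives `a i = cen d * α i`.  Cancel `cen d`: `H i l = α i * β l`.
* `jm φ (α i) = a'' i` (cancel `φ d`), so `jm φ (∑ β i * α i) = ∑ (φ c / φ e) β' i * (φ e / φ c) α' i = 1`;
  injectivity gives `∑ β i * α i = 1`.
(Scalars from the fraction field are central in `W (FractionRing k[X]) J`.)
-/

namespace Prt

open Polynomial

noncomputable section

namespace SplitTAux

variable {k : Type*} [Field k] {J : Type*}

/-- the inclusion of `k[X]` in its field of fractions -/
abbrev ph (k : Type*) [Field k] : k[X] →+* FractionRing k[X] :=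
  algebraMap k[X] (FractionRing k[X])

lemma ph_inj : Function.Injective (ph k) := IsFractionRing.injective k[X] (FractionRing k[X])

lemma ph_ne {c : k[X]} (hc : c ≠ 0) : ph k c ≠ 0 := by
  intro h
  exact hc (ph_inj (by rw [h, map_zero]))

lemma jm_cen_mul (c : k[X]) (q : (W k J)[X]) :
    jm (ph k) (cen c * q) = ph k c • jm (ph k) q := by
  rw [map_mul, jm_cen, ← Algebra.smul_def]

lemma clear_all [Fintype J] (u : J → W (FractionRing k[X]) J) :
    ∃ c : k[X], c ≠ 0 ∧ ∃ q : J → (W k J)[X], ∀ j, jm (ph k) (q j) = ph k c • u j := by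
  classical
  have h : ∀ j, ∃ c : k[X], c ≠ 0 ∧ ∃ q : (W k J)[X], jm (ph k) q = ph k c • u j := by
    intro j
    obtain ⟨c, hc, q, hq⟩ := clear (u j)
    exact ⟨c, hc, q, by rw [hq, ← Algebra.smul_def]⟩
  choose c hc q hq using h
  refine ⟨∏ j, c j, Finset.prod_ne_zero_iff.2 fun j _ => hc j,
    fun j => cen (∏ i ∈ Finset.univ.erase j, c i) * q j, fun j => ?_⟩
  rw [jm_cen_mul, hq, smul_smul, ← map_mul, mul_comm, Finset.mul_prod_erase _ _ (Finset.mem_univ j)]

end SplitTAux

open SplitTAux in
theorem split_poly {k : Type*} [Field k] {J : Type*} [Fintype J] [DecidableEq J]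
    (H : J → J → (W k J)[X]) (hH : ∀ i j, ∑ l, H i l * H l j = H i j)
    (hm : ∀ i i' j j', lin (H i j) * lin (H i' j') = lin (H i j') * lin (H i' j)) :
    ∃ α β : J → (W k J)[X], (∀ i j, H i j = α i * β j) ∧
      ((∑ i, β i * α i = 1) ∨ ∀ i j, H i j = 0) := by
  have hinj := jm_injective (J := J) (ph k) ph_inj
  obtain ⟨α', β', h1, h2⟩ := split_field (fun i l => jm (ph k) (H i l))
    (by
      intro i j
      rw [← hH i j, map_sum]
      exact Finset.sum_congr rfl fun l _ => (map_mul _ _ _).symm)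
    (by
      intro i i' j j'
      simp only [eps_jm]
      rw [← map_mul, hm, map_mul])
  rcases h2 with h2 | h2
  swap
  · have h3 : ∀ i j, H i j = 0 := fun i j => hinj (by rw [map_zero]; exact h2 i j)
    exact ⟨fun _ => 0, fun _ => 0, fun i j => by rw [h3 i j, zero_mul], Or.inr h3⟩
  obtain ⟨c, hc, b, hb⟩ := clear_all β'
  have hb0 : ∃ j, b j ≠ 0 := by
    by_contra hcon
    push Not at hcon
    have h3 : ∀ j, β' j = 0 := by
      intro j
      have h4 := hb j
      rw [hcon j, map_zero] at h4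
      exact (smul_eq_zero.1 h4.symm).resolve_left (ph_ne hc)
    simp only [h3, zero_mul, Finset.sum_const_zero] at h2
    exact zero_ne_one h2
  obtain ⟨e, he, β, hβ, hprim⟩ := exists_primitive hb0
  have hβ' : ∀ j, β' j = (ph k e / ph k c) • jm (ph k) (β j) := by
    intro j
    have h3 := hb j
    rw [hβ j, jm_cen_mul] at h3
    rw [div_eq_inv_mul, mul_smul, h3, inv_smul_smul₀ (ph_ne hc)]
  have hH' : ∀ i l, jm (ph k) (H i l) = ((ph k e / ph k c) • α' i) * jm (ph k) (β l) := by
    intro i l
    rw [h1 i l, hβ' l, mul_smul_comm, smul_mul_assoc]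
  obtain ⟨d, hd, a, ha⟩ := clear_all fun i => (ph k e / ph k c) • α' i
  have hdH : ∀ i l, a i * β l = cen d * H i l := by
    intro i l
    apply hinj
    rw [jm_cen_mul, hH' i l, map_mul, ha i, smul_mul_assoc]
  have hdv : ∀ i, ∃ r : (W k J)[X], a i = cen d * r := fun i =>
    gauss hprim hd fun j => ⟨H i j, hdH i j⟩
  choose α hα using hdv
  have hjα : ∀ i, jm (ph k) (α i) = (ph k e / ph k c) • α' i := by
    intro i
    have h3 := ha i
    rw [hα i, jm_cen_mul] at h3
    exact smul_right_injective _ (ph_ne hd) h3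
  refine ⟨α, β, fun i j => hinj ?_, Or.inl (hinj ?_)⟩
  · rw [map_mul, hjα i, hH' i j]
  · rw [map_sum, map_one, ← h2]
    refine Finset.sum_congr rfl fun i _ => ?_
    rw [map_mul, hjα i, hβ' i, mul_smul_comm, smul_mul_assoc]

end

end Prt
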