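import Pool.Agent.Lib.Prt.Inj

/-!
MODULE Prt.XDeg (1.2 h).  The degree in the variables `x j` (`z` has weight 0).

SKETCH.  `xd : W k J →ₐ[k] (W k J)[X] := hom (fun o => o.elim (C z) (fun j => C (x j) * X))`,
`d f := (xd f).natDegree`.
* `xd f = 0 → f = 0`: evaluate at `X = 1` (`eval₂RingHom' (RingHom.id _) 1 _` is a ring
  homomorphism, and its composition with `xd` is the identity on letters).
* `d (f + g) ≤ max`: `Polynomial.natDegree_add_le`.  `xd (zin p) = C (zin p)`, so `d (zin p) = 0`.
* evaluation at `X = 0` composed with `xd` is `zin ∘ eps` (check on letters).  If `eps y = 0` and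
  `d y = 0` then `xd y = C c`, `c = y` by evaluation at 1, `c = zin (eps y) = 0` by evaluation at 0: `y = 0`.
  So `1 ≤ d y` for `y ≠ 0`.  Let `m = d y`, `y' := (xd y).coeff m ≠ 0` (leading coefficient).
* `eps (coefficient of `X ^ m` of `xd y`) = 0` for `m ≥ 1`: for all `f`, mapping `xd f` by `eps` on the
  coefficients gives `C (eps f)` (both are algebra homomorphisms in `f`, agree on letters since
  `eps (x j) = 0`); so `eps y' = 0`.
* `xd (S q y) = ∑ a, xd (q_a) * xd y * C (z ^ a)`.  Let `N = max` over `a` of `d (q_a)`,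
  over the support of `q` (nonempty), and `r := ∑ a, monomial a ((xd q_a).coeff N) : (W k J)[X]`, which
  is nonzero (at an `a` where the maximum is attained and `q_a ≠ 0` it is a leading
  coefficient; if `N = 0` note `(xd q_a).coeff 0 ≠ 0` as well).  The coefficient of `X ^ (N + m)` in `xd (S q y)` is
  `S r y'` (all `xd q_a` have degree `≤ N`, `xd y` has degree `m`:
  `Polynomial.coeff_mul_of_natDegree_le`), nonzero by `S_inj`.  Hence `N + m ≤ d (S q y)`.
-/

namespace Prt

open Polynomial

noncomputable section

namespace XDegAux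

variable {k : Type*} [CommRing k] {J : Type*}

/-- the grading homomorphism -/
def xd : W k J →ₐ[k] (W k J)[X] := hom (fun o => o.elim (C z) (fun j => C (x j) * X))

theorem xd_none : xd (lt none : W k J) = C (lt none) := by
  unfold xd
  rw [hom_lt]
  rfl

theorem xd_some (j : J) : xd (lt (some j) : W k J) = C (lt (some j)) * X := by
  unfold xd
  rw [hom_lt]
  rfl

theorem xd_const (c : k) : xd (algebraMap k (W k J) c) = C (algebraMap k (W k J) c) := by
  rw [AlgHom.commutes]
  rfl

theorem eps_none : eps (lt none : W k J) = X := eps_z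

theorem eps_some (j : J) : eps (lt (some j) : W k J) = 0 := eps_x j

/-- evaluation at `1` -/
def ev1 : (W k J)[X] →+* W k J := eval₂RingHom' (RingHom.id _) 1 fun _ => Commute.one_right _

theorem ev1_C (c : W k J) : ev1 (C c) = c := by
  unfold ev1
  simp

theorem ev1_X : ev1 (X : (W k J)[X]) = 1 := by
  unfold ev1
  simp

theorem ev1_xd (f : W k J) : ev1 (xd f) = f := by
  refine W_induction_left (P := fun f => ev1 (xd f) = f) ?_ ?_ ?_ f
  · intro c
    rw [xd_const, ev1_C]
  · intro o f hf
    rw [map_mul, map_mul, hf]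
    congr 1
    cases o with
    | none => rw [xd_none, ev1_C]
    | some j => rw [xd_some, map_mul, ev1_C, ev1_X, mul_one]
  · intro f g hf hg
    rw [map_add, map_add, hf, hg]

theorem coeff_zero_xd (f : W k J) : (xd f).coeff 0 = zin (eps f) := by
  rw [← constantCoeff_apply]
  refine W_induction_left (P := fun f => constantCoeff (xd f) = zin (eps f)) ?_ ?_ ?_ f
  · intro c
    rw [xd_const, constantCoeff_apply, coeff_C_zero, AlgHom.commutes, AlgHom.commutes]
  · intro o f hf
    rw [map_mul, map_mul, hf, map_mul, map_mul]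
    congr 1
    cases o with
    | none => rw [xd_none, constantCoeff_apply, coeff_C_zero, eps_none, zin_X]; rfl
    | some j => rw [xd_some, eps_some, map_zero, constantCoeff_apply, coeff_mul_X_zero]
  · intro f g hf hg
    rw [map_add, map_add, hf, hg, map_add, map_add]

theorem map_xd (f : W k J) : (xd f).map (eps (k := k) (J := J)).toRingHom = C (eps f) := by
  refine W_induction_left
    (P := fun f => (xd f).map (eps (k := k) (J := J)).toRingHom = C (eps f)) ?_ ?_ ?_ f
  · intro c
    rw [xd_const, Polynomial.map_C]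
    rfl
  · intro o f hf
    rw [map_mul, map_mul, Polynomial.map_mul, hf, C_mul]
    congr 1
    cases o with
    | none => rw [xd_none, Polynomial.map_C]; rfl
    | some j =>
      rw [xd_some, Polynomial.map_mul, Polynomial.map_C, eps_some, C_0]
      have : (eps (k := k) (J := J)).toRingHom (lt (some j)) = 0 := eps_some j
      rw [this, C_0, zero_mul]
  · intro f g hf hg
    rw [map_add, Polynomial.map_add, hf, hg, map_add, C_add]

theorem xd_inj {f : W k J} (h : xd f = 0) : f = 0 := by
  rw [← ev1_xd f, h, map_zero]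

theorem xd_zin (p : k[X]) : xd (zin p : W k J) = C (zin p) := by
  induction p using Polynomial.induction_on with
  | C a =>
    have : (zin (C a) : W k J) = algebraMap k (W k J) a := by
      change zin (algebraMap k k[X] a) = _
      rw [AlgHom.commutes]
    rw [this, xd_const]
  | add p q hp hq => rw [map_add, map_add, hp, hq, C_add]
  | monomial n a _ =>
    have h1 : (zin (C a) : W k J) = algebraMap k (W k J) a := by
      change zin (algebraMap k k[X] a) = _
      rw [AlgHom.commutes]
    have h2 : xd (z : W k J) = C z := xd_none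
    rw [map_mul, map_pow, zin_X, h1, map_mul, xd_const, map_pow, h2, C_mul, C_pow]

theorem eps_coeff {y : W k J} (hy : eps y = 0) (m : ℕ) : eps ((xd y).coeff m) = 0 := by
  have h := map_xd y
  rw [hy, C_0] at h
  have h2 : ((xd y).map (eps (k := k) (J := J)).toRingHom).coeff m = 0 := by
    rw [h, coeff_zero]
  rw [coeff_map] at h2
  exact h2

theorem one_le_deg {y : W k J} (hy : eps y = 0) (hy0 : y ≠ 0) : 1 ≤ (xd y).natDegree := by
  by_contra hlt
  have h0 : (xd y).natDegree = 0 := by omega
  have h1 := eq_C_of_natDegree_eq_zero h0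
  rw [coeff_zero_xd, hy, map_zero, C_0] at h1
  exact hy0 (xd_inj h1)

theorem main [IsDomain k] [Fintype J] [DecidableEq J] {y : W k J} {q : (W k J)[X]} {a : ℕ}
    (hy : eps y = 0) (hy0 : y ≠ 0) (ha : q.coeff a ≠ 0) :
    (xd (q.coeff a)).natDegree < (xd (S q y)).natDegree := by
  classical
  set N := q.support.sup fun a => (xd (q.coeff a)).natDegree with hN
  set m := (xd y).natDegree with hm
  have hle : ∀ a ∈ q.support, (xd (q.coeff a)).natDegree ≤ N := fun a h =>
    Finset.le_sup (f := fun a => (xd (q.coeff a)).natDegree) h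
  have haN := hle a (mem_support_iff.2 ha)
  have hm1 := one_le_deg hy hy0
  have hy' : (xd y).coeff m ≠ 0 := by
    rw [hm, coeff_natDegree, Ne, leadingCoeff_eq_zero]
    exact fun h => hy0 (xd_inj h)
  obtain ⟨b, hb, hbN⟩ : ∃ b ∈ q.support, (xd (q.coeff b)).natDegree = N := by
    obtain ⟨b, hb, h⟩ := Finset.exists_mem_eq_sup q.support ⟨a, mem_support_iff.2 ha⟩
      (fun a => (xd (q.coeff a)).natDegree)
    exact ⟨b, hb, h.symm⟩
  let r : (W k J)[X] := ∑ a ∈ q.support, monomial a ((xd (q.coeff a)).coeff N)
  have hr : ∀ c, r.coeff c = (xd (q.coeff c)).coeff N := by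
    intro c
    change (∑ a ∈ q.support, monomial a ((xd (q.coeff a)).coeff N)).coeff c = _
    rw [finsetSum_coeff]
    simp only [coeff_monomial]
    rw [Finset.sum_ite_eq']
    split_ifs with h
    · rfl
    · rw [notMem_support_iff.1 h, map_zero, coeff_zero]
  have hr0 : r ≠ 0 := by
    intro h
    have h1 := hr b
    rw [h, coeff_zero, ← hbN, coeff_natDegree] at h1
    have h2 : xd (q.coeff b) = 0 := leadingCoeff_eq_zero.1 h1.symm
    exact mem_support_iff.1 hb (xd_inj h2)
  have hS : (xd (S q y)).coeff (N + m) = S r ((xd y).coeff m) := by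
    have e1 : S q y = ∑ a ∈ q.support, q.coeff a * y * z ^ a := rfl
    have hz : xd (z : W k J) = C z := xd_none
    have e2 : S r ((xd y).coeff m) =
        ∑ a ∈ q.support, (xd (q.coeff a)).coeff N * (xd y).coeff m * z ^ a := by
      unfold S
      rw [sum_def]
      rw [Finset.sum_subset (s₂ := q.support)]
      · refine Finset.sum_congr rfl fun c _ => ?_
        rw [hr]
      · intro c hc
        by_contra hc2
        rw [mem_support_iff, hr, notMem_support_iff.1 hc2, map_zero, coeff_zero] at hc
        exact hc rfl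
      · intro c _ hc
        rw [notMem_support_iff.1 hc, zero_mul, zero_mul]
    rw [e1, e2, map_sum, finsetSum_coeff]
    refine Finset.sum_congr rfl fun c hc => ?_
    rw [map_mul, map_mul, map_pow, hz, ← C_pow, coeff_mul_C,
      coeff_mul_add_eq_of_natDegree_le (hle c hc) hm.ge]
  have hne : (xd (S q y)).coeff (N + m) ≠ 0 := by
    rw [hS]
    exact fun h => hr0 (S_inj (eps_coeff hy m) hy' h)
  have := le_natDegree_of_ne_zero hne
  omega

end XDegAux

open XDegAux

theorem exists_xdeg (k : Type*) [Field k] (J : Type*) [Fintype J] [DecidableEq J] :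
    ∃ d : W k J → ℕ, (∀ f g, d (f + g) ≤ max (d f) (d g)) ∧ (∀ f, d (-f) = d f) ∧
      (∀ p : k[X], d (zin p) = 0) ∧
      ∀ (y : W k J) (q : (W k J)[X]) (a : ℕ), eps y = 0 → y ≠ 0 → q.coeff a ≠ 0 →
        d (q.coeff a) < d (S q y) := by
  refine ⟨fun f => (xd f).natDegree, ?_, ?_, ?_, ?_⟩
  · intro f g
    simp only
    rw [map_add]
    exact natDegree_add_le _ _
  · intro f
    simp only
    rw [map_neg, natDegree_neg]
  · intro p
    simp only
    rw [xd_zin, natDegree_C]
  · intro y q a hy hy0 ha
    exact main hy hy0 ha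

end

end Prt
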